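import Mathlib

/-! The arithmetic of the read-`k` bound. -/

namespace Pool.Agent.V7H65.RK

/-- The loss in the density of the two sides. -/
def KK (k : ℕ) : ℕ := 32 * (4 * k * k + 1) ^ k

/-- The number of vertices needed for one good gadget. -/
def EE (k : ℕ) : ℕ := 57600 * (8 * KK k ^ 16) * (8 * KK k ^ 16)

theorem EE_le (k : ℕ) (hk : 1 ≤ k) : EE k ≤ ((1000 * k) ^ k) ^ 64 := by
  have h1 : EE k = 57600 * 64 * 32 ^ 32 * (4 * k * k + 1) ^ (32 * k) := by
    unfold EE KK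
    rw [mul_pow]
    have : (4 * k * k + 1) ^ (32 * k) = ((4 * k * k + 1) ^ k) ^ 32 := by
      rw [← pow_mul, mul_comm 32 k]
    rw [this]
    ring
  rw [h1]
  have h2 : (4 * k * k + 1) ^ (32 * k) ≤ (5 * k * k) ^ (32 * k) := by
    apply Nat.pow_le_pow_left
    nlinarith
  have h3 : 57600 * 64 * 32 ^ 32 ≤ (57600 * 64 * 32 ^ 32) ^ k :=
    Nat.le_self_pow (by omega) _
  calc 57600 * 64 * 32 ^ 32 * (4 * k * k + 1) ^ (32 * k)
      ≤ (57600 * 64 * 32 ^ 32) ^ k * (5 * k * k) ^ (32 * k) := Nat.mul_le_mul h3 h2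
    _ = (57600 * 64 * 32 ^ 32 * 5 ^ 32 * k ^ 64) ^ k := by
        have : (5 * k * k) ^ 32 = 5 ^ 32 * k ^ 64 := by ring
        rw [pow_mul (5 * k * k), this, ← mul_pow, ← mul_assoc]
    _ ≤ ((1000 * k) ^ 64) ^ k := by
        apply Nat.pow_le_pow_left
        rw [mul_pow]
        apply Nat.mul_le_mul_right
        norm_num
    _ = ((1000 * k) ^ k) ^ 64 := by
        rw [← pow_mul, ← pow_mul, mul_comm 64 k]

theorem sqrt_facts (n : ℕ) : n ≤ 2 ^ (2 * Nat.sqrt n) := by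
  have h1 : n < (Nat.sqrt n + 1) * (Nat.sqrt n + 1) := Nat.lt_succ_sqrt n
  have h2 : Nat.sqrt n + 1 ≤ 2 ^ Nat.sqrt n := Nat.lt_two_pow_self
  calc n ≤ (Nat.sqrt n + 1) * (Nat.sqrt n + 1) := h1.le
    _ ≤ 2 ^ Nat.sqrt n * 2 ^ Nat.sqrt n := Nat.mul_le_mul h2 h2
    _ = 2 ^ (2 * Nat.sqrt n) := by rw [← pow_add]; congr 1; omega

/-- The exponents. -/
theorem expo (k n : ℕ) (hk : 1 ≤ k) (ha : 1 ≤ n / (1000 * k) ^ (1000 * k)) :
    6 * (3 + (4 * k * k) * (2 + 2 * (n / (1000 * k) ^ (1000 * k)) + 4 * Nat.sqrt n) +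
      n / (1000 * k) ^ (1000 * k)) ≤ n / EE k := by
  set U := (1000 * k) ^ k with hU
  have hT : (1000 * k) ^ (1000 * k) = U ^ 1000 := by
    rw [hU, ← pow_mul, mul_comm k 1000]
  rw [hT] at ha ⊢
  set a := n / U ^ 1000 with haD
  set Q := 4 * k * k with hQ
  set r := Nat.sqrt n with hr
  have hUge : 1000 * k ≤ U := Nat.le_self_pow (by omega) _
  have hU1 : 1000 ≤ U := by omega
  have hQU : Q ≤ U := by
    rcases Nat.lt_or_ge k 2 with h | h
    · have : k = 1 := by omega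
      rw [hQ, this]
      omega
    · have h2 : (1000 * k) ^ 2 ≤ U := Nat.pow_le_pow_right (by omega) h
      have h3 : Q ≤ (1000 * k) ^ 2 := by
        rw [hQ, sq]
        nlinarith
      exact h3.trans h2
  have hE := EE_le k hk
  rw [← hU] at hE
  have hEpos : 0 < EE k := by
    unfold EE KK
    positivity
  have haT : a * U ^ 1000 ≤ n := Nat.div_mul_le_self _ _
  have hn : U ^ 1000 ≤ n := by
    calc U ^ 1000 = 1 * U ^ 1000 := (one_mul _).symm
      _ ≤ a * U ^ 1000 := Nat.mul_le_mul_right _ ha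
      _ ≤ n := haT
  have hr2 : r * r ≤ n := Nat.sqrt_le n
  have hr3 : U ^ 500 ≤ r := by
    rw [hr, Nat.le_sqrt, ← pow_add]
    exact hn
  rw [Nat.le_div_iff_mul_le hEpos]
  -- the five terms
  have p66 : U ^ 66 ≤ U ^ 1000 := Nat.pow_le_pow_right (by omega) (by norm_num)
  have t1 : 5 * (18 * EE k) ≤ n := by
    calc 5 * (18 * EE k) ≤ 5 * (18 * U ^ 64) := by gcongr
      _ = 90 * U ^ 64 := by ring
      _ ≤ U ^ 2 * U ^ 64 := by
          apply Nat.mul_le_mul_right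
          nlinarith
      _ = U ^ 66 := by rw [← pow_add]
      _ ≤ n := p66.trans hn
  have t2 : 5 * (12 * Q * EE k) ≤ n := by
    calc 5 * (12 * Q * EE k) ≤ 5 * (12 * U * U ^ 64) := by gcongr
      _ = 60 * U ^ 65 := by ring
      _ ≤ U * U ^ 65 := by
          apply Nat.mul_le_mul_right
          omega
      _ = U ^ 66 := by ring
      _ ≤ n := p66.trans hn
  have t3 : 5 * (12 * Q * a * EE k) ≤ n := by
    calc 5 * (12 * Q * a * EE k) ≤ 5 * (12 * U * a * U ^ 64) := by gcongr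
      _ = a * (60 * U ^ 65) := by ring
      _ ≤ a * (U * U ^ 65) := by
          apply Nat.mul_le_mul_left
          apply Nat.mul_le_mul_right
          omega
      _ = a * U ^ 66 := by ring
      _ ≤ a * U ^ 1000 := Nat.mul_le_mul_left _ p66
      _ ≤ n := haT
  have t4 : 5 * (24 * Q * r * EE k) ≤ n := by
    have p67 : U ^ 66 ≤ U ^ 500 := Nat.pow_le_pow_right (by omega) (by norm_num)
    calc 5 * (24 * Q * r * EE k) ≤ 5 * (24 * U * r * U ^ 64) := by gcongr
      _ = (120 * U ^ 65) * r := by ring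
      _ ≤ (U * U ^ 65) * r := by
          apply Nat.mul_le_mul_right
          apply Nat.mul_le_mul_right
          omega
      _ = U ^ 66 * r := by ring
      _ ≤ r * r := Nat.mul_le_mul_right _ (p67.trans hr3)
      _ ≤ n := hr2
  have t5 : 5 * (6 * a * EE k) ≤ n := by
    have p64 : U ^ 65 ≤ U ^ 1000 := Nat.pow_le_pow_right (by omega) (by norm_num)
    calc 5 * (6 * a * EE k) ≤ 5 * (6 * a * U ^ 64) := by gcongr
      _ = a * (30 * U ^ 64) := by ring
      _ ≤ a * (U * U ^ 64) := by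
          apply Nat.mul_le_mul_left
          apply Nat.mul_le_mul_right
          omega
      _ = a * U ^ 65 := by ring
      _ ≤ a * U ^ 1000 := Nat.mul_le_mul_left _ p64
      _ ≤ n := haT
  have e : 6 * (3 + Q * (2 + 2 * a + 4 * r) + a) * EE k =
      18 * EE k + 12 * Q * EE k + 12 * Q * a * EE k + 24 * Q * r * EE k + 6 * a * EE k := by
    ring
  rw [e]
  omega

/-- The final comparison. -/
theorem final_ineq (k n s T : ℕ) (hk : 1 ≤ k)
    (ha : 1 ≤ n / (1000 * k) ^ (1000 * k))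
    (hs2 : s ≤ 2 ^ (n / (1000 * k) ^ (1000 * k)))
    (hT : T ≤ (4 * (s * s) * (n * n)) ^ (4 * k * k)) :
    8 * (T : ℝ) * (8 / 9) ^ (n / EE k) ≤ 1 / 2 ^ (n / (1000 * k) ^ (1000 * k)) := by
  have h1 := expo k n hk ha
  set a := n / (1000 * k) ^ (1000 * k) with haD
  set Q := 4 * k * k with hQ
  set r := Nat.sqrt n with hr
  have h2 : T ≤ 2 ^ (Q * (2 + 2 * a + 4 * r)) := by
    refine hT.trans ?_
    have e : 2 ^ (Q * (2 + 2 * a + 4 * r)) = (2 ^ (2 + 2 * a + 4 * r)) ^ Q := by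
      rw [← pow_mul, mul_comm]
    rw [e]
    refine Nat.pow_le_pow_left ?_ Q
    have h3 := sqrt_facts n
    rw [← hr] at h3
    calc 4 * (s * s) * (n * n) ≤ 4 * (2 ^ a * 2 ^ a) * (2 ^ (2 * r) * 2 ^ (2 * r)) := by gcongr
      _ = 2 ^ (2 + 2 * a + 4 * r) := by
          rw [← pow_add, ← pow_add, show (4 : ℕ) = 2 ^ 2 by norm_num, ← pow_add, ← pow_add]
          congr 1
          omega
  have h3 : (T : ℝ) ≤ 2 ^ (Q * (2 + 2 * a + 4 * r)) := by exact_mod_cast h2
  have h4 : ((8 : ℝ) / 9) ^ (n / EE k) ≤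
      (8 / 9) ^ (6 * (3 + Q * (2 + 2 * a + 4 * r) + a)) :=
    pow_le_pow_of_le_one (by norm_num) (by norm_num) h1
  have h5 : ((8 : ℝ) / 9) ^ (6 * (3 + Q * (2 + 2 * a + 4 * r) + a)) ≤
      (1 / 2) ^ (3 + Q * (2 + 2 * a + 4 * r) + a) := by
    rw [pow_mul]
    apply pow_le_pow_left₀ (by positivity)
    norm_num
  calc 8 * (T : ℝ) * (8 / 9) ^ (n / EE k)
      ≤ 8 * 2 ^ (Q * (2 + 2 * a + 4 * r)) * (1 / 2) ^ (3 + Q * (2 + 2 * a + 4 * r) + a) := by
        apply mul_le_mul _ (h4.trans h5) (by positivity) (by positivity)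
        apply mul_le_mul_of_nonneg_left h3 (by norm_num)
    _ = 1 / 2 ^ a := by
        rw [show (8 : ℝ) = 2 ^ 3 by norm_num, ← pow_add, one_div, inv_pow, one_div,
          pow_add 2 (3 + Q * (2 + 2 * a + 4 * r)) a, mul_inv, ← mul_assoc,
          mul_inv_cancel₀ (by positivity), one_mul]

end Pool.Agent.V7H65.RK
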