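import Mathlib

/-! Nondeterministic branching programs and the decomposition of read-`k` programs. -/

namespace Pool.Agent.V7H65.RK

open Finset

/-- A nondeterministic branching program with `s` nodes over the variables `V`: a directed acyclic
multigraph (the nodes are topologically sorted) with a source and a sink. An edge with label
`some (x, b)` tests whether `x = b`; an edge with label `none` is unlabelled. -/
structure NBP (V : Type) (s : ℕ) where
  /-- the source -/
  src : Fin s
  /-- the sink -/
  snk : Fin s
  /-- the labelled edges -/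
  edge : Fin s → Option (V × Bool) → Fin s → Prop
  /-- the nodes are topologically sorted -/
  edge_lt : ∀ i l j, edge i l j → i < j

namespace NBP

variable {V : Type} {s : ℕ}

/-- `w` is the list of the labels and end nodes of the edges of a path from `i` to `j`. -/
def IsPath (P : NBP V s) : Fin s → List (Option (V × Bool) × Fin s) → Fin s → Prop
  | i, [], j => i = j
  | i, (l, i') :: w, j => P.edge i l i' ∧ IsPath P i' w j

/-- All tests on the path are passed by the input `z`. -/
def Sat (z : V → Bool) (w : List (Option (V × Bool) × Fin s)) : Prop :=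
  ∀ e ∈ w, ∀ x b, e.1 = some (x, b) → z x = b

/-- The variables tested along a path, with multiplicities. -/
def tests (w : List (Option (V × Bool) × Fin s)) : List V :=
  w.filterMap (fun e => e.1.map Prod.fst)

/-- The program accepts `z` if some path from the source to the sink passes all tests. -/
def Accepts (P : NBP V s) (z : V → Bool) : Prop :=
  ∃ w, P.IsPath P.src w P.snk ∧ Sat z w

/-- Syntactic read-`k`: no path from the source to the sink tests a variable more than `k`
times. -/
def ReadK [DecidableEq V] (P : NBP V s) (k : ℕ) : Prop :=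
  ∀ w, P.IsPath P.src w P.snk → ∀ x, (tests w).count x ≤ k

/-- The program is deterministic: two different edges with the same start node test the same
variable for the two different values. -/
def Deterministic (P : NBP V s) : Prop :=
  ∀ i l j l' j', P.edge i l j → P.edge i l' j' → (l = l' ∧ j = j') ∨
    ∃ x b, l = some (x, b) ∧ l' = some (x, !b)

variable (P : NBP V s)

theorem isPath_append {i j k : Fin s} {w w' : List (Option (V × Bool) × Fin s)}
    (h : P.IsPath i w j) (h' : P.IsPath j w' k) : P.IsPath i (w ++ w') k := by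
  induction w generalizing i with
  | nil =>
    simp only [IsPath] at h
    subst h
    exact h'
  | cons e w ih =>
    obtain ⟨l, i'⟩ := e
    exact ⟨h.1, ih h.2⟩

theorem isPath_append_iff {i k : Fin s} {w w' : List (Option (V × Bool) × Fin s)} :
    P.IsPath i (w ++ w') k ↔ ∃ j, P.IsPath i w j ∧ P.IsPath j w' k := by
  induction w generalizing i with
  | nil => simp [IsPath]
  | cons e w ih =>
    obtain ⟨l, i'⟩ := e
    simp only [List.cons_append, IsPath, ih]
    constructor
    · rintro ⟨h1, j, h2, h3⟩
      exact ⟨j, ⟨h1, h2⟩, h3⟩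
    · rintro ⟨j, ⟨h1, h2⟩, h3⟩
      exact ⟨h1, j, h2, h3⟩

theorem isPath_unique {i j j' : Fin s} {w : List (Option (V × Bool) × Fin s)}
    (h : P.IsPath i w j) (h' : P.IsPath i w j') : j = j' := by
  induction w generalizing i with
  | nil =>
    simp only [IsPath] at h h'
    rw [← h, ← h']
  | cons e w ih =>
    obtain ⟨l, i'⟩ := e
    exact ih h.2 h'.2

theorem isPath_le {i j : Fin s} {w : List (Option (V × Bool) × Fin s)} (h : P.IsPath i w j) :
    i ≤ j ∧ (i = j → w = []) := by
  induction w generalizing i with
  | nil =>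
    simp only [IsPath] at h
    exact ⟨h.le, fun _ => rfl⟩
  | cons e w ih =>
    obtain ⟨l, i'⟩ := e
    have h1 := P.edge_lt _ _ _ h.1
    have h2 := (ih h.2).1
    have h3 : i < j := lt_of_lt_of_le h1 h2
    exact ⟨h3.le, fun h => absurd h h3.ne⟩

theorem sat_append {z : V → Bool} {w w' : List (Option (V × Bool) × Fin s)} :
    Sat z (w ++ w') ↔ Sat z w ∧ Sat z w' := by
  unfold Sat
  simp only [List.mem_append]
  constructor
  · intro h
    exact ⟨fun e he => h e (Or.inl he), fun e he => h e (Or.inr he)⟩
  · rintro ⟨h1, h2⟩ e (he | he)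
    · exact h1 e he
    · exact h2 e he

theorem sat_cons {z : V → Bool} {e : Option (V × Bool) × Fin s}
    {w : List (Option (V × Bool) × Fin s)} :
    Sat z (e :: w) ↔ (∀ x b, e.1 = some (x, b) → z x = b) ∧ Sat z w := by
  unfold Sat
  simp only [List.mem_cons]
  constructor
  · intro h
    exact ⟨h e (Or.inl rfl), fun e he => h e (Or.inr he)⟩
  · rintro ⟨h1, h2⟩ e' (he | he)
    · subst he; exact h1
    · exact h2 e' he

theorem tests_append (w w' : List (Option (V × Bool) × Fin s)) :
    tests (w ++ w') = tests w ++ tests w' := by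
  simp [tests]

/-- Unambiguity at the node `u`. -/
def Unamb (z : V → Bool) (u : Fin s) : Prop :=
  ∀ w w', P.IsPath u w P.snk → Sat z w → P.IsPath u w' P.snk → Sat z w' → w = w'

theorem unamb_of_deterministic (hP : P.Deterministic) (z : V → Bool) (u : Fin s) :
    P.Unamb z u := by
  intro w
  induction w generalizing u with
  | nil =>
    intro w' h1 _ h3 _
    simp only [IsPath] at h1
    exact ((P.isPath_le h3).2 h1).symm
  | cons e w ih =>
    intro w' h1 h2 h3 h4
    obtain ⟨l, i⟩ := e
    rcases w' with _ | ⟨⟨l', i'⟩, w'⟩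
    · simp only [IsPath] at h3
      exact (P.isPath_le h1).2 h3
    · rw [sat_cons] at h2 h4
      have h5 : l = l' ∧ i = i' := by
        rcases hP u l i l' i' h1.1 h3.1 with h | ⟨x, b, hl, hl'⟩
        · exact h
        · exfalso
          have e1 := h2.1 x b hl
          have e2 := h4.1 x (!b) hl'
          rw [e1] at e2
          cases b <;> simp at e2
      obtain ⟨rfl, rfl⟩ := h5
      rw [ih i w' h1.2 h2.2 h3.2 h4.2]

section decomp

variable [DecidableEq V]

open Classical in
/-- The variables from `Z` tested on some path from `u` to `v`. -/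
noncomputable def vset (Z : Finset V) (u v : Fin s) : Finset V :=
  Z.filter (fun x => ∃ w, P.IsPath u w v ∧ x ∈ tests w)

omit [DecidableEq V] in
theorem vset_mono {Z : Finset V} {u v v' : Fin s} {w : List (Option (V × Bool) × Fin s)}
    (h : P.IsPath v w v') : P.vset Z u v ⊆ P.vset Z u v' := by
  intro x hx
  simp only [vset, mem_filter] at hx ⊢
  obtain ⟨h1, w', h2, h3⟩ := hx
  refine ⟨h1, w' ++ w, P.isPath_append h2 h, ?_⟩
  rw [tests_append]
  exact List.mem_append_left _ h3

omit [DecidableEq V] in
theorem vset_self (Z : Finset V) (u : Fin s) : P.vset Z u u = ∅ := by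
  apply eq_empty_of_forall_notMem
  intro x hx
  simp only [vset, mem_filter] at hx
  obtain ⟨_, w, h1, h2⟩ := hx
  rw [(P.isPath_le h1).2 rfl] at h2
  simp [tests] at h2

/-- A segment: start node, end node, label of the edge that follows. -/
abbrev Seg (V : Type) (s : ℕ) := Fin s × Fin s × Option (V × Bool)

/-- The input `z` passes the segment. -/
def Pass (z : V → Bool) (g : Seg V s) : Prop :=
  (∃ w, P.IsPath g.1 w g.2.1 ∧ Sat z w) ∧ ∀ x b, g.2.2 = some (x, b) → z x = b

/-- The relevant variables of a segment. -/
noncomputable def svars (Z : Finset V) (g : Seg V s) : Finset V :=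
  P.vset Z g.1 g.2.1 ∪ Z.filter (fun x => ∃ b, g.2.2 = some (x, b))

/-- Greedy subdivisions of a path from `u` to the sink. -/
inductive Chain (Z : Finset V) (M : ℕ) : Fin s → List (Seg V s) → Prop
  | last (u : Fin s) : (∃ w, P.IsPath u w P.snk) → (P.vset Z u P.snk).card ≤ M →
      Chain Z M u [(u, P.snk, none)]
  | cons (u v u' : Fin s) (l : Option (V × Bool)) (L : List (Seg V s)) :
      (∃ w, P.IsPath u w v) → (P.vset Z u v).card ≤ M → P.edge v l u' →
      M < (P.vset Z u u').card → Chain Z M u' L → Chain Z M u ((u, v, l) :: L)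

theorem exists_chain {Z : Finset V} {M : ℕ} {z : V → Bool}
    (w : List (Option (V × Bool) × Fin s)) : ∀ {v u : Fin s},
    P.IsPath v w P.snk → Sat z w → (∃ w₀, P.IsPath u w₀ v ∧ Sat z w₀) →
    (P.vset Z u v).card ≤ M → ∃ L, P.Chain Z M u L ∧ ∀ g ∈ L, P.Pass z g := by
  induction w with
  | nil =>
    intro v u h1 _ ⟨w₀, h3, h4⟩ h5
    simp only [IsPath] at h1
    subst h1
    refine ⟨_, Chain.last u ⟨w₀, h3⟩ h5, ?_⟩
    intro g hg
    rw [List.mem_singleton] at hg
    subst hg
    exact ⟨⟨w₀, h3, h4⟩, by simp⟩
  | cons e w ih =>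
    intro v u h1 h2 ⟨w₀, h3, h4⟩ h5
    obtain ⟨l, v'⟩ := e
    rw [sat_cons] at h2
    by_cases h6 : (P.vset Z u v').card ≤ M
    · apply ih h1.2 h2.2 _ h6
      refine ⟨w₀ ++ [(l, v')], P.isPath_append h3 ⟨h1.1, rfl⟩, ?_⟩
      rw [sat_append, sat_cons]
      exact ⟨h4, h2.1, by simp [Sat]⟩
    · obtain ⟨L, hL, hL2⟩ := ih (u := v') h1.2 h2.2 ⟨[], rfl, by simp [Sat]⟩
        (by rw [vset_self]; simp)
      refine ⟨_, Chain.cons u v v' l L ⟨w₀, h3⟩ h5 h1.1 (by omega) hL, ?_⟩
      intro g hg
      rw [List.mem_cons] at hg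
      rcases hg with rfl | hg
      · exact ⟨⟨w₀, h3, h4⟩, h2.1⟩
      · exact hL2 g hg

omit [DecidableEq V] in
theorem chain_sound {Z : Finset V} {M : ℕ} {z : V → Bool} {u : Fin s} {L : List (Seg V s)}
    (h : P.Chain Z M u L) (hz : ∀ g ∈ L, P.Pass z g) : ∃ w, P.IsPath u w P.snk ∧ Sat z w := by
  induction h with
  | last u _ _ => exact (hz _ (List.mem_singleton_self _)).1
  | cons u v u' l L _ _ h3 _ _ ih =>
    obtain ⟨w, h5, h6⟩ := ih (fun g hg => hz g (List.mem_cons_of_mem _ hg))
    obtain ⟨⟨w', h7, h8⟩, h9⟩ := hz _ List.mem_cons_self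
    refine ⟨w' ++ (l, u') :: w, P.isPath_append h7 ⟨h3, h5⟩, ?_⟩
    rw [sat_append, sat_cons]
    exact ⟨h8, h9, h6⟩

open Classical in
theorem chain_mult {Z : Finset V} {M : ℕ} {u : Fin s} {L : List (Seg V s)}
    (h : P.Chain Z M u L) (x : V) : ∃ w, P.IsPath u w P.snk ∧
      (L.countP (fun g => decide (x ∈ P.svars Z g))) ≤ (tests w).count x := by
  induction h with
  | last u h1 h2 =>
    obtain ⟨w₀, hw₀⟩ := h1
    by_cases hx : x ∈ P.svars Z (u, P.snk, none)
    · have hx2 := hx
      simp only [svars, mem_union, mem_filter, vset] at hx2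
      rcases hx2 with ⟨_, w, h3, h4⟩ | ⟨_, b, hb⟩
      · refine ⟨w, h3, ?_⟩
        rw [List.countP_cons, List.countP_nil]
        have := List.count_pos_iff.2 h4
        simp only [hx, decide_true, if_true]
        omega
      · cases hb
    · refine ⟨w₀, hw₀, ?_⟩
      rw [List.countP_cons, List.countP_nil]
      simp [hx]
  | cons u v u' l L h1 h2 h3 h4 _ ih =>
    obtain ⟨w, h5, h6⟩ := ih
    obtain ⟨w₀, hw₀⟩ := h1
    rw [List.countP_cons]
    by_cases hx : x ∈ P.svars Z (u, v, l)
    · have hx2 := hx
      simp only [svars, mem_union, mem_filter, vset] at hx2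
      rcases hx2 with ⟨_, w', h7, h8⟩ | ⟨_, b, hb⟩
      · refine ⟨w' ++ (l, u') :: w, P.isPath_append h7 ⟨h3, h5⟩, ?_⟩
        have h9 := List.count_pos_iff.2 h8
        have h10 : (tests w).count x ≤ (tests ((l, u') :: w)).count x := by
          have : (l, u') :: w = [(l, u')] ++ w := rfl
          rw [this, tests_append, List.count_append]
          omega
        rw [tests_append, List.count_append]
        simp only [hx, decide_true, if_true]
        omega
      · subst hb
        refine ⟨w₀ ++ (some (x, b), u') :: w, P.isPath_append hw₀ ⟨h3, h5⟩, ?_⟩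
        have h10 : (tests ((some (x, b), u') :: w)).count x = (tests w).count x + 1 := by
          simp [tests]
        rw [tests_append, List.count_append, h10]
        simp only [hx, decide_true, if_true]
        omega
    · refine ⟨w₀ ++ (l, u') :: w, P.isPath_append hw₀ ⟨h3, h5⟩, ?_⟩
      have h10 : (tests w).count x ≤ (tests ((l, u') :: w)).count x := by
        have : (l, u') :: w = [(l, u')] ++ w := rfl
        rw [this, tests_append, List.count_append]
        omega
      rw [tests_append, List.count_append]
      simp only [hx, decide_false, Bool.false_eq_true, if_false]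
      omega

open Classical in
theorem chain_big {Z : Finset V} {M : ℕ} {u : Fin s} {L : List (Seg V s)}
    (h : P.Chain Z M u L) : ∃ W : List (Finset V), W.length + 1 = L.length ∧
      (∀ A ∈ W, A ⊆ Z ∧ M < A.card) ∧ ∀ x : V, ∃ w, P.IsPath u w P.snk ∧
        (W.countP (fun A => decide (x ∈ A))) ≤ (tests w).count x := by
  induction h with
  | last u h1 h2 =>
    refine ⟨[], rfl, by simp, ?_⟩
    intro x
    obtain ⟨w, hw⟩ := h1
    exact ⟨w, hw, by simp⟩
  | cons u v u' l L h1 h2 h3 h4 _ ih =>
    obtain ⟨W, hW1, hW2, hW3⟩ := ih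
    refine ⟨P.vset Z u u' :: W, by simp only [List.length_cons]; omega, ?_, ?_⟩
    · intro A hA
      rw [List.mem_cons] at hA
      rcases hA with rfl | hA
      · refine ⟨?_, h4⟩
        unfold vset
        exact filter_subset _ _
      · exact hW2 A hA
    · intro x
      obtain ⟨w, h5, h6⟩ := hW3 x
      obtain ⟨w₀, hw₀⟩ := h1
      rw [List.countP_cons]
      by_cases hx : x ∈ P.vset Z u u'
      · have hx2 := hx
        simp only [mem_filter, vset] at hx2
        obtain ⟨_, w', h7, h8⟩ := hx2
        refine ⟨w' ++ w, P.isPath_append h7 h5, ?_⟩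
        have h9 := List.count_pos_iff.2 h8
        rw [tests_append, List.count_append]
        simp only [hx, decide_true, if_true]
        omega
      · refine ⟨w₀ ++ (l, u') :: w, P.isPath_append hw₀ ⟨h3, h5⟩, ?_⟩
        have h10 : (tests w).count x ≤ (tests ((l, u') :: w)).count x := by
          have : (l, u') :: w = [(l, u')] ++ w := rfl
          rw [this, tests_append, List.count_append]
          omega
        rw [tests_append, List.count_append]
        simp only [hx, decide_false, Bool.false_eq_true, if_false]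
        omega

open Classical in
theorem sum_card_le (Z : Finset V) (k : ℕ) (W : List (Finset V)) (hW : ∀ A ∈ W, A ⊆ Z)
    (h : ∀ x, (W.countP (fun A => decide (x ∈ A))) ≤ k) :
    (W.map Finset.card).sum ≤ k * Z.card := by
  have h1 : (W.map Finset.card).sum = ∑ x ∈ Z, W.countP (fun A => decide (x ∈ A)) := by
    clear h
    induction W with
    | nil => simp
    | cons A W ih =>
      rw [List.map_cons, List.sum_cons, ih (fun B hB => hW B (List.mem_cons_of_mem _ hB))]
      simp only [List.countP_cons]
      rw [sum_add_distrib, add_comm]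
      congr 1
      simp only [decide_eq_true_eq]
      rw [← card_filter]
      congr 1
      ext x
      simp only [mem_filter]
      constructor
      · intro hx
        exact ⟨hW A List.mem_cons_self hx, hx⟩
      · intro hx
        exact hx.2
  rw [h1]
  calc ∑ x ∈ Z, W.countP (fun A => decide (x ∈ A)) ≤ ∑ x ∈ Z, k := sum_le_sum (fun x _ => h x)
    _ = k * Z.card := by rw [sum_const, smul_eq_mul, mul_comm]

theorem chain_length {Z : Finset V} {M k : ℕ} {L : List (Seg V s)} (hP : P.ReadK k)
    (h : P.Chain Z M P.src L) : (L.length - 1) * (M + 1) ≤ k * Z.card := by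
  classical
  obtain ⟨W, hW1, hW2, hW3⟩ := P.chain_big h
  have h1 := sum_card_le Z k W (fun A hA => (hW2 A hA).1) (by
    intro x
    obtain ⟨w, h2, h3⟩ := hW3 x
    exact h3.trans (hP w h2 x))
  refine le_trans ?_ h1
  have h2 : L.length - 1 = W.length := by omega
  rw [h2]
  clear h1 h2 hW1 hW3
  induction W with
  | nil => simp
  | cons A W ih =>
    have h3 := hW2 A List.mem_cons_self
    have h4 := ih (fun B hB => hW2 B (List.mem_cons_of_mem _ hB))
    simp only [List.map_cons, List.sum_cons, List.length_cons]
    have e : (W.length + 1) * (M + 1) = W.length * (M + 1) + (M + 1) := by ring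
    rw [e]
    omega

theorem chain_unique {Z : Finset V} {M : ℕ} {z : V → Bool} {u : Fin s} {L L' : List (Seg V s)}
    (h : P.Chain Z M u L) (h' : P.Chain Z M u L') (hz : ∀ g ∈ L, P.Pass z g)
    (hz' : ∀ g ∈ L', P.Pass z g) (hu : P.Unamb z u) : L = L' := by
  induction h generalizing L' with
  | last u h1 h2 =>
    cases h' with
    | last _ _ _ => rfl
    | cons _ v' u' l' L' h1' h2' h3' h4' h5' =>
      exfalso
      obtain ⟨w, h6, _⟩ := P.chain_sound h5' (fun g hg => hz' g (List.mem_cons_of_mem _ hg))
      have := card_le_card (P.vset_mono (Z := Z) (u := u) h6)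
      omega
  | cons u v u2 l L h1 h2 h3 h4 h5 ih =>
    cases h' with
    | last _ h1' h2' =>
      exfalso
      obtain ⟨w, h6, _⟩ := P.chain_sound h5 (fun g hg => hz g (List.mem_cons_of_mem _ hg))
      have := card_le_card (P.vset_mono (Z := Z) (u := u) h6)
      omega
    | cons _ v' u2' l' L' h1' h2' h3' h4' h5' =>
      obtain ⟨⟨w₁, hw₁, hw₁s⟩, hl⟩ := hz _ List.mem_cons_self
      obtain ⟨⟨w₁', hw₁', hw₁s'⟩, hl'⟩ := hz' _ List.mem_cons_self
      obtain ⟨w₂, hw₂, hw₂s⟩ := P.chain_sound h5 (fun g hg => hz g (List.mem_cons_of_mem _ hg))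
      obtain ⟨w₂', hw₂', hw₂s'⟩ := P.chain_sound h5'
        (fun g hg => hz' g (List.mem_cons_of_mem _ hg))
      have heq : w₁ ++ (l, u2) :: w₂ = w₁' ++ (l', u2') :: w₂' := by
        apply hu
        · exact P.isPath_append hw₁ ⟨h3, hw₂⟩
        · rw [sat_append, sat_cons]; exact ⟨hw₁s, hl, hw₂s⟩
        · exact P.isPath_append hw₁' ⟨h3', hw₂'⟩
        · rw [sat_append, sat_cons]; exact ⟨hw₁s', hl', hw₂s'⟩
      have hno : ∀ {a b : List (Option (V × Bool) × Fin s)} {v v' u2 : Fin s}
          {l : Option (V × Bool)} {c : List (Option (V × Bool) × Fin s)},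
          P.IsPath u a v → P.IsPath u b v' → P.edge v l u2 → M < (P.vset Z u u2).card →
          (P.vset Z u v').card ≤ M → b = a ++ (l, u2) :: c → False := by
        intro a b v v' u2 l c ha hb he hM hM' hab
        rw [hab] at hb
        obtain ⟨j, hj1, hj2⟩ := (P.isPath_append_iff).1 hb
        have := card_le_card (P.vset_mono (Z := Z) (u := u) hj2.2)
        omega
      rcases List.append_eq_append_iff.1 heq with ⟨c, hc1, hc2⟩ | ⟨c, hc1, hc2⟩
      · rcases c with _ | ⟨e, c⟩
        · simp only [List.append_nil, List.nil_append, List.cons.injEq, Prod.mk.injEq] at hc1 hc2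
          obtain ⟨⟨rfl, rfl⟩, _⟩ := hc2
          subst hc1
          have := P.isPath_unique hw₁ hw₁'
          subst this
          congr 1
          apply ih h5' (fun g hg => hz g (List.mem_cons_of_mem _ hg))
            (fun g hg => hz' g (List.mem_cons_of_mem _ hg))
          intro a b ha has hb hbs
          have := hu (w₁' ++ (l, u2) :: a) (w₁' ++ (l, u2) :: b)
            (P.isPath_append hw₁ ⟨h3, ha⟩) (by rw [sat_append, sat_cons]; exact ⟨hw₁s, hl, has⟩)
            (P.isPath_append hw₁ ⟨h3, hb⟩) (by rw [sat_append, sat_cons]; exact ⟨hw₁s, hl, hbs⟩)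
          simpa using this
        · exfalso
          simp only [List.cons_append, List.cons.injEq] at hc2
          rw [← hc2.1] at hc1
          exact hno hw₁ hw₁' h3 h4 h2' hc1
      · rcases c with _ | ⟨e, c⟩
        · simp only [List.append_nil, List.nil_append, List.cons.injEq, Prod.mk.injEq] at hc1 hc2
          obtain ⟨⟨rfl, rfl⟩, _⟩ := hc2
          subst hc1
          have := P.isPath_unique hw₁ hw₁'
          subst this
          congr 1
          apply ih h5' (fun g hg => hz g (List.mem_cons_of_mem _ hg))
            (fun g hg => hz' g (List.mem_cons_of_mem _ hg))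
          intro a b ha has hb hbs
          have := hu (w₁ ++ (l', u2') :: a) (w₁ ++ (l', u2') :: b)
            (P.isPath_append hw₁ ⟨h3, ha⟩) (by rw [sat_append, sat_cons]; exact ⟨hw₁s, hl, has⟩)
            (P.isPath_append hw₁ ⟨h3, hb⟩) (by rw [sat_append, sat_cons]; exact ⟨hw₁s, hl, hbs⟩)
          simpa using this
        · exfalso
          simp only [List.cons_append, List.cons.injEq] at hc2
          rw [← hc2.1] at hc1
          exact hno hw₁' hw₁ h3' h4' h2 hc1

end decomp

end NBP

end Pool.Agent.V7H65.RK
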