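import Mathlib
import Pool.Agent.V7H65.RK.BP

/-! Read-`k` programs are unions of few mixing sets. -/

namespace Pool.Agent.V7H65.RK

open Finset

namespace NBP

variable {V : Type} {s : ℕ} (P : NBP V s) [DecidableEq V]

omit [DecidableEq V] in
theorem chain_small {Z : Finset V} {M : ℕ} {u : Fin s} {L : List (Seg V s)}
    (h : P.Chain Z M u L) : ∀ g ∈ L, (P.vset Z g.1 g.2.1).card ≤ M := by
  induction h with
  | last u _ h2 =>
    intro g hg
    rw [List.mem_singleton] at hg
    subst hg
    exact h2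
  | cons u v u' l L _ h2 _ _ _ ih =>
    intro g hg
    rw [List.mem_cons] at hg
    rcases hg with rfl | hg
    · exact h2
    · exact ih g hg

theorem svars_card {Z : Finset V} {M : ℕ} (g : Seg V s) (h : (P.vset Z g.1 g.2.1).card ≤ M) :
    (P.svars Z g).card ≤ M + 1 := by
  classical
  unfold svars
  refine (card_union_le _ _).trans ?_
  apply Nat.add_le_add h
  rw [card_le_one]
  intro a ha b hb
  simp only [mem_filter] at ha hb
  obtain ⟨_, c, hc⟩ := ha
  obtain ⟨_, d, hd⟩ := hb
  rw [hc] at hd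
  simp only [Option.some.injEq, Prod.mk.injEq] at hd
  exact hd.1

theorem pass_congr {Z : Finset V} {g : Seg V s} {z z' : V → Bool} (h : P.Pass z g)
    (hz : ∀ v, (v ∈ Z → v ∈ P.svars Z g) → z' v = z v) : P.Pass z' g := by
  obtain ⟨⟨w, h1, h2⟩, h3⟩ := h
  refine ⟨⟨w, h1, ?_⟩, ?_⟩
  · intro e he x b hb
    rw [hz x]
    · exact h2 e he x b hb
    · intro hx
      simp only [svars, mem_union, vset, mem_filter]
      left
      refine ⟨hx, w, h1, ?_⟩
      simp only [tests, List.mem_filterMap]
      exact ⟨e, he, by rw [hb]; rfl⟩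
  · intro x b hb
    rw [hz x]
    · exact h3 x b hb
    · intro hx
      simp only [svars, mem_union, mem_filter]
      right
      exact ⟨hx, b, hb⟩

open Classical in
theorem countP_fin_aux {α : Type*} (p : α → Bool) (L : List α) : ∀ Q : ℕ,
    ((univ : Finset (Fin Q)).filter (fun i => ∃ g, L[i.val]? = some g ∧ p g = true)).card ≤
      L.countP p := by
  induction L with
  | nil => intro Q; simp
  | cons a L ih =>
    intro Q
    rcases Q with _ | Q
    · simp
    · rw [card_filter, Fin.sum_univ_succ, List.countP_cons, add_comm]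
      apply Nat.add_le_add
      · have := ih Q
        rw [card_filter] at this
        refine le_trans (le_of_eq ?_) this
        apply sum_congr rfl
        intro i _
        simp
      · by_cases hp : p a = true
        · simp [hp]
        · simp [hp]

theorem countP_fin {α : Type*} (p : α → Bool) (L : List α) (Q : ℕ)
    (F : Finset (Fin Q)) (hF : ∀ i ∈ F, ∃ g, L[i.val]? = some g ∧ p g = true) :
    F.card ≤ L.countP p := by
  classical
  refine le_trans (card_le_card ?_) (countP_fin_aux p L Q)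
  intro i hi
  rw [mem_filter]
  exact ⟨mem_univ _, hF i hi⟩

theorem card_small_sets (Q k : ℕ) :
    ((univ : Finset (Finset (Fin Q))).filter (fun S => S.card ≤ k)).card ≤ (Q + 1) ^ k := by
  classical
  have h : (univ : Finset (Finset (Fin Q))).filter (fun S => S.card ≤ k) ⊆
      (univ : Finset (Fin k → Option (Fin Q))).image
        (fun c => univ.filter (fun i => ∃ j, c j = some i)) := by
    intro S hS
    rw [mem_filter] at hS
    rw [mem_image]
    refine ⟨fun j => S.toList[j.val]?, mem_univ _, ?_⟩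
    ext i
    simp only [mem_filter, mem_univ, true_and]
    constructor
    · rintro ⟨j, hj⟩
      have := List.mem_of_getElem? hj
      simpa using this
    · intro hi
      have h1 : i ∈ S.toList := by simpa using hi
      obtain ⟨j, hj⟩ := List.mem_iff_getElem?.1 h1
      have h2 : j < S.toList.length := by
        by_contra h
        rw [List.getElem?_eq_none (by omega)] at hj
        cases hj
      rw [length_toList] at h2
      exact ⟨⟨j, by omega⟩, hj⟩
  refine (card_le_card h).trans (card_image_le.trans ?_)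
  rw [card_univ, Fintype.card_fun, Fintype.card_option, Fintype.card_fin, Fintype.card_fin]

/-- A set of inputs closed under mixing with respect to `X` and `Y`. -/
def MixV (X Y : Finset V) (R : (V → Bool) → Prop) : Prop :=
  ∀ z z' : V → Bool, R z → R z' → (∀ e, e ∉ X → e ∉ Y → z e = z' e) →
    R (fun e => if e ∈ X then z e else z' e)

/-- Selecting the two sides. -/
theorem exists_sides (Z : Finset V) (k Q M : ℕ) (T : Fin Q → Finset V) (hk : 1 ≤ k)
    (hT : ∀ i, (T i).card ≤ M + 1) (hM : 4 * k * M ≤ Z.card) (hZ : 16 * k ≤ Z.card)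
    (hmult : ∀ x, (univ.filter (fun i => x ∈ T i)).card ≤ k) :
    ∃ (X Y : Finset V) (S : Finset (Fin Q)), X ⊆ Z ∧ Y ⊆ Z ∧ Disjoint X Y ∧
      Z.card ≤ 8 * (Q + 1) ^ k * X.card ∧ Z.card ≤ 8 * (Q + 1) ^ k * Y.card ∧
      (∀ i ∈ S, Disjoint (T i) Y) ∧ (∀ i ∉ S, Disjoint (T i) X) := by
  classical
  set 𝒮 := (univ : Finset (Finset (Fin Q))).filter (fun S => S.card ≤ k) with h𝒮
  let I : V → Finset (Fin Q) := fun x => univ.filter (fun i => x ∈ T i)
  have hI : ∀ x ∈ Z, I x ∈ 𝒮 := by
    intro x _
    rw [h𝒮, mem_filter]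
    exact ⟨mem_univ _, hmult x⟩
  have hne : 𝒮.Nonempty := ⟨∅, by rw [h𝒮, mem_filter]; exact ⟨mem_univ _, by simp⟩⟩
  obtain ⟨S, hS, hA⟩ : ∃ S ∈ 𝒮, Z.card ≤ 𝒮.card * (Z.filter (fun x => I x = S)).card := by
    by_contra hcon
    push Not at hcon
    have h1 : Z.card = ∑ S ∈ 𝒮, (Z.filter (fun x => I x = S)).card :=
      card_eq_sum_card_fiberwise hI
    have h2 : ∑ S ∈ 𝒮, 𝒮.card * (Z.filter (fun x => I x = S)).card < ∑ S ∈ 𝒮, Z.card :=
      sum_lt_sum_of_nonempty hne hcon
    rw [← mul_sum, ← h1, sum_const, smul_eq_mul] at h2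
    exact absurd h2 (lt_irrefl _)
  have hSk : S.card ≤ k := (mem_filter.1 hS).2
  have hcard := card_small_sets Q k
  rw [← h𝒮] at hcard
  set D := (Q + 1) ^ k with hD
  have hDpos : 1 ≤ D := Nat.one_le_pow _ _ (by omega)
  set A := Z.filter (fun x => I x = S) with hAdef
  have hA2 : Z.card ≤ D * A.card := hA.trans (Nat.mul_le_mul_right _ hcard)
  -- choose the set `X` inside `A`, of the right size
  set a := (Z.card + 8 * D - 1) / (8 * D) with ha
  have ha1 : Z.card ≤ 8 * D * a := by
    have := Nat.div_add_mod (Z.card + 8 * D - 1) (8 * D)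
    have h2 := Nat.mod_lt (Z.card + 8 * D - 1) (show 0 < 8 * D by omega)
    rw [ha]
    omega
  have ha2 : a ≤ A.card := by
    rw [ha]
    apply Nat.le_of_lt_succ
    rw [Nat.div_lt_iff_lt_mul (by omega)]
    have : (A.card + 1) * (8 * D) = 8 * (D * A.card) + 8 * D := by ring
    rw [Nat.succ_eq_add_one, this]
    omega
  have ha3 : 4 * a ≤ Z.card := by
    have h3 : a ≤ (Z.card + 7) / 8 := by
      rw [ha]
      have h4 : (Z.card + 8 * D - 1) / (8 * D) ≤ (Z.card + 8 - 1) / 8 := by
        apply Nat.le_of_lt_succ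
        rw [Nat.div_lt_iff_lt_mul (by omega), Nat.succ_eq_add_one]
        have h5 := Nat.div_add_mod (Z.card + 8 - 1) 8
        have h6 := Nat.mod_lt (Z.card + 8 - 1) (show 0 < 8 by omega)
        set q := (Z.card + 8 - 1) / 8
        have h7 : q * 8 ≤ q * (8 * D) := Nat.mul_le_mul_left _ (by omega)
        have h8 : (q + 1) * (8 * D) = q * (8 * D) + 8 * D := by ring
        rw [h8]
        omega
      exact h4
    omega
  obtain ⟨X, hXA, hXcard⟩ := exists_subset_card_eq ha2
  set U := S.biUnion T with hU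
  have hUcard : U.card ≤ k * (M + 1) := by
    rw [hU]
    refine card_biUnion_le.trans ?_
    calc ∑ i ∈ S, (T i).card ≤ ∑ i ∈ S, (M + 1) := sum_le_sum (fun i _ => hT i)
      _ = S.card * (M + 1) := by rw [sum_const, smul_eq_mul]
      _ ≤ k * (M + 1) := Nat.mul_le_mul_right _ hSk
  refine ⟨X, (Z \ U) \ X, S, ?_, ?_, ?_, ?_, ?_, ?_, ?_⟩
  · exact hXA.trans (filter_subset _ _)
  · exact sdiff_subset.trans sdiff_subset
  · exact disjoint_sdiff
  · rw [hXcard]
    exact ha1
  · have h1 : Z.card ≤ ((Z \ U) \ X).card + X.card + U.card := by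
      have h2 := le_card_sdiff X (Z \ U)
      have h3 := le_card_sdiff U Z
      omega
    have h2 : k * (M + 1) = k * M + k := by ring
    have h3 : 4 * k * M = 4 * (k * M) := by ring
    have h4 : Z.card ≤ 4 * ((Z \ U) \ X).card + 4 * k + Z.card / 2 + Z.card / 2 := by omega
    have h5 : Z.card ≤ 8 * ((Z \ U) \ X).card := by omega
    calc Z.card ≤ 8 * ((Z \ U) \ X).card := h5
      _ = 8 * 1 * ((Z \ U) \ X).card := by ring
      _ ≤ 8 * D * ((Z \ U) \ X).card := by
        apply Nat.mul_le_mul_right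
        apply Nat.mul_le_mul_left _ hDpos
  · intro i hi
    rw [disjoint_left]
    intro x hx hx2
    rw [mem_sdiff, mem_sdiff] at hx2
    exact hx2.1.2 (mem_biUnion.2 ⟨i, hi, hx⟩)
  · intro i hi
    rw [disjoint_left]
    intro x hx hx2
    have h1 := (mem_filter.1 (hXA hx2)).2
    apply hi
    rw [← h1]
    exact mem_filter.2 ⟨mem_univ _, hx⟩

variable [Fintype V]

/-- The decomposition of a read-`k` program. -/
theorem decomp (k : ℕ) (hk : 1 ≤ k) (hP : P.ReadK k) (Z : Finset V) (hZ : 16 * k ≤ Z.card) :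
    ∃ (𝒯 : Finset (Fin (4 * k * k) → Option (Seg V s)))
      (R : (Fin (4 * k * k) → Option (Seg V s)) → (V → Bool) → Prop),
      (∀ z, P.Accepts z ↔ ∃ t ∈ 𝒯, R t z) ∧
      (∀ z, P.Unamb z P.src → ∀ t ∈ 𝒯, ∀ t' ∈ 𝒯, R t z → R t' z → t = t') ∧
      (∀ t ∈ 𝒯, ∃ X Y : Finset V, X ⊆ Z ∧ Y ⊆ Z ∧ Disjoint X Y ∧
        Z.card ≤ 8 * (4 * k * k + 1) ^ k * X.card ∧ Z.card ≤ 8 * (4 * k * k + 1) ^ k * Y.card ∧
        MixV X Y (R t)) := by
  classical
  set Q := 4 * k * k with hQ
  set M := Z.card / (4 * k) with hM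
  have hM1 : 4 * k * M ≤ Z.card := by
    rw [hM]; exact Nat.mul_div_le _ _
  have hM2 : Z.card < 4 * k * (M + 1) := by
    have := Nat.div_add_mod Z.card (4 * k)
    have h2 := Nat.mod_lt Z.card (show 0 < 4 * k by omega)
    rw [mul_add, hM]
    omega
  have hlen : ∀ L, P.Chain Z M P.src L → L.length ≤ Q := by
    intro L hL
    have h1 := P.chain_length hP hL
    by_contra hcon
    have h2 : Q ≤ L.length - 1 := by omega
    have h3 : Q * (M + 1) ≤ k * Z.card := (Nat.mul_le_mul_right _ h2).trans h1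
    have h4 : k * Z.card < k * (4 * k * (M + 1)) := Nat.mul_lt_mul_of_pos_left hM2 (by omega)
    have h5 : k * (4 * k * (M + 1)) = Q * (M + 1) := by rw [hQ]; ring
    omega
  let 𝒯 : Finset (Fin Q → Option (Seg V s)) :=
    univ.filter (fun t => ∃ L, P.Chain Z M P.src L ∧ ∀ i : Fin Q, t i = L[i.val]?)
  let R : (Fin Q → Option (Seg V s)) → (V → Bool) → Prop :=
    fun t z => ∀ i g, t i = some g → P.Pass z g
  have hR : ∀ t L z, P.Chain Z M P.src L → (∀ i : Fin Q, t i = L[i.val]?) →
      (R t z ↔ ∀ g ∈ L, P.Pass z g) := by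
    intro t L z hL ht
    constructor
    · intro h g hg
      obtain ⟨j, hj⟩ := List.mem_iff_getElem?.1 hg
      have h2 : j < L.length := by
        by_contra h
        rw [List.getElem?_eq_none (by omega)] at hj
        cases hj
      have h3 := hlen L hL
      exact h ⟨j, by omega⟩ g (by rw [ht]; exact hj)
    · intro h i g hi
      rw [ht] at hi
      exact h g (List.mem_of_getElem? hi)
  refine ⟨𝒯, R, ?_, ?_, ?_⟩
  · intro z
    constructor
    · rintro ⟨w, h1, h2⟩
      obtain ⟨L, hL, hL2⟩ := P.exists_chain (Z := Z) (M := M) w h1 h2 ⟨[], rfl, by simp [Sat]⟩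
        (by rw [vset_self]; simp)
      refine ⟨fun i => L[i.val]?, ?_, ?_⟩
      · exact mem_filter.2 ⟨mem_univ _, L, hL, fun _ => rfl⟩
      · exact (hR _ L z hL (fun _ => rfl)).2 hL2
    · rintro ⟨t, ht, htz⟩
      obtain ⟨_, L, hL, hL2⟩ := mem_filter.1 ht
      exact P.chain_sound hL ((hR t L z hL hL2).1 htz)
  · intro z hu t ht t' ht' hz hz'
    obtain ⟨_, L, hL, hL2⟩ := mem_filter.1 ht
    obtain ⟨_, L', hL', hL2'⟩ := mem_filter.1 ht'
    have := P.chain_unique hL hL' ((hR t L z hL hL2).1 hz) ((hR t' L' z hL' hL2').1 hz') hu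
    subst this
    funext i
    rw [hL2, hL2']
  · intro t ht
    obtain ⟨_, L, hL, hL2⟩ := mem_filter.1 ht
    let T : Fin Q → Finset V := fun i => match t i with
      | some g => P.svars Z g
      | none => ∅
    have hT : ∀ i g, t i = some g → T i = P.svars Z g := by
      intro i g h
      simp only [T, h]
    have hT2 : ∀ i, t i = none → T i = ∅ := by
      intro i h
      simp only [T, h]
    obtain ⟨X, Y, S, hX, hY, hXY, hXc, hYc, hS1, hS2⟩ := exists_sides Z k Q M T hk (by
        intro i
        rcases h : t i with _ | g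
        · rw [hT2 i h]; simp
        · rw [hT i g h]
          apply P.svars_card
          apply P.chain_small hL
          rw [hL2] at h
          exact List.mem_of_getElem? h) hM1 hZ (by
        intro x
        obtain ⟨w, h1, h2⟩ := P.chain_mult hL x
        refine le_trans ?_ (h2.trans (hP w h1 x))
        apply countP_fin
        intro i hi
        rw [mem_filter] at hi
        rcases h : t i with _ | g
        · rw [hT2 i h] at hi
          simp at hi
        · rw [hT i g h] at hi
          exact ⟨g, by rw [← hL2, h], by simpa using hi.2⟩)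
    refine ⟨X, Y, hX, hY, hXY, hXc, hYc, ?_⟩
    intro z z' hz hz' hag i g hi
    by_cases hiS : i ∈ S
    · apply P.pass_congr (Z := Z) (hz i g hi)
      intro v hv
      have h1 := hS1 i hiS
      rw [hT i g hi] at h1
      by_cases hvX : v ∈ X
      · rw [if_pos hvX]
      · rw [if_neg hvX]
        symm
        apply hag v hvX
        intro hvY
        exact disjoint_left.1 h1 (hv (hY hvY)) hvY
    · apply P.pass_congr (Z := Z) (hz' i g hi)
      intro v hv
      have h1 := hS2 i hiS
      rw [hT i g hi] at h1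
      rw [if_neg]
      intro hvX
      exact disjoint_left.1 h1 (hv (hX hvX)) hvX

end NBP

end Pool.Agent.V7H65.RK
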