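import Mathlib

/-! The discrepancy of the inner product modulo three on combinatorial rectangles. -/

namespace Pool.Agent.V7H65.RK

open Finset

noncomputable section

/-- A primitive third root of unity. -/
def om : ℂ := ⟨-1 / 2, Real.sqrt 3 / 2⟩

theorem sq3 : Real.sqrt 3 * Real.sqrt 3 = 3 := Real.mul_self_sqrt (by norm_num)

theorem om_sq : om * om = ⟨-1 / 2, -(Real.sqrt 3 / 2)⟩ := by
  apply Complex.ext
  · simp only [om, Complex.mul_re]
    have := sq3
    nlinarith
  · simp only [om, Complex.mul_im]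
    ring

theorem om_cube : om ^ 3 = 1 := by
  have h : om ^ 3 = om * om * om := by ring
  rw [h, om_sq]
  apply Complex.ext
  · simp only [om, Complex.mul_re, Complex.one_re]
    have := sq3
    nlinarith
  · simp only [om, Complex.mul_im, Complex.one_im]
    ring

theorem one_add_om : 1 + om + om * om = 0 := by
  rw [om_sq]
  apply Complex.ext
  · simp only [om, Complex.add_re, Complex.one_re, Complex.zero_re]
    norm_num
  · simp only [om, Complex.add_im, Complex.one_im, Complex.zero_im]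
    ring

theorem normSq_om : Complex.normSq om = 1 := by
  simp only [om, Complex.normSq_apply]
  have := sq3
  nlinarith

theorem norm_om : ‖om‖ = 1 := by
  have h := Complex.normSq_eq_norm_sq om
  rw [normSq_om] at h
  have h2 : (0 : ℝ) ≤ ‖om‖ := norm_nonneg _
  nlinarith

/-- The additive character of `ZMod 3`. -/
def chi (a : ZMod 3) : ℂ := om ^ a.val

theorem chi_zero : chi 0 = 1 := by simp [chi]

theorem chi_add (a b : ZMod 3) : chi (a + b) = chi a * chi b := by
  unfold chi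
  rw [← pow_add, ZMod.val_add]
  have h : a.val + b.val = 3 * ((a.val + b.val) / 3) + (a.val + b.val) % 3 := by omega
  conv_rhs => rw [h, pow_add, pow_mul, om_cube, one_pow, one_mul]

theorem norm_chi (a : ZMod 3) : ‖chi a‖ = 1 := by
  unfold chi
  rw [norm_pow, norm_om, one_pow]

theorem chi_sum {ι : Type*} (s : Finset ι) (f : ι → ZMod 3) :
    chi (∑ i ∈ s, f i) = ∏ i ∈ s, chi (f i) := by
  classical
  induction s using Finset.induction_on with
  | empty => simp [chi_zero]
  | insert a s ha ih => rw [sum_insert ha, prod_insert ha, chi_add, ih]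

theorem chi_conj_mul (a b : ZMod 3) : chi a * (starRingEnd ℂ) (chi b) = chi (a - b) := by
  have h1 : chi b * (starRingEnd ℂ) (chi b) = 1 := by
    rw [Complex.mul_conj, Complex.normSq_eq_norm_sq, norm_chi]
    norm_num
  have h2 : chi a = chi (a - b) * chi b := by
    rw [← chi_add, sub_add_cancel]
  rw [h2, mul_assoc, h1, mul_one]

/-- The number of common ones modulo three, coordinate by coordinate. -/
def ip {ι : Type*} [Fintype ι] (x y : ι → Bool) : ZMod 3 := ∑ i, if x i && y i then 1 else 0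

/-- The kernel of one coordinate. -/
def ker (a b : Bool) : ℂ :=
  1 + chi ((if a then 1 else 0) - (if b then 1 else 0))

theorem norm_ker (a b : Bool) : ‖ker a b‖ = if a = b then 2 else 1 := by
  have h1 : (1 : ℂ) + om = -(om * om) := by
    have := one_add_om
    linear_combination this
  have h2 : (1 : ℂ) + om * om = -om := by
    have := one_add_om
    linear_combination this
  cases a <;> cases b
  · simp [ker, chi_zero]
    norm_num
  · have : ker false true = 1 + om * om := by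
      have e : ((0 : ZMod 3) - 1).val = 2 := by decide
      simp only [ker, chi, Bool.false_eq_true, if_false, if_true, e]
      ring
    rw [this, h2]
    simp [norm_om]
  · have : ker true false = 1 + om := by
      have e : ((1 : ZMod 3) - 0).val = 1 := by decide
      simp only [ker, chi, Bool.false_eq_true, if_false, if_true, e]
      ring
    rw [this, h1]
    simp [norm_om]
  · simp [ker, chi_zero]
    norm_num

variable {ι : Type*} [Fintype ι] [DecidableEq ι]

theorem sum_chi (y y' : ι → Bool) :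
    ∑ x : ι → Bool, chi (ip x y) * (starRingEnd ℂ) (chi (ip x y')) =
      ∏ i, ker (y i) (y' i) := by
  have h : ∀ x : ι → Bool, chi (ip x y) * (starRingEnd ℂ) (chi (ip x y')) =
      ∏ i, (if x i then chi ((if y i then 1 else 0) - (if y' i then 1 else 0)) else 1) := by
    intro x
    rw [chi_conj_mul, ip, ip, ← sum_sub_distrib, chi_sum]
    apply prod_congr rfl
    intro i _
    cases x i
    · simp [chi_zero]
    · simp
  rw [sum_congr rfl (fun x _ => h x)]
  have h2 := Finset.prod_univ_sum (ι := ι) (κ := fun _ => Bool) (fun _ => (univ : Finset Bool))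
    (fun i b => if b then chi ((if y i then 1 else 0) - (if y' i then 1 else 0)) else (1 : ℂ))
  rw [Fintype.piFinset_univ] at h2
  rw [← h2]
  apply prod_congr rfl
  intro i _
  rw [Fintype.sum_bool]
  simp only [ker, if_true, Bool.false_eq_true, if_false]
  ring

theorem sum_norm_ker (y : ι → Bool) :
    ∑ y' : ι → Bool, ‖∏ i, ker (y i) (y' i)‖ = 3 ^ Fintype.card ι := by
  have h : ∀ y' : ι → Bool, ‖∏ i, ker (y i) (y' i)‖ = ∏ i, ‖ker (y i) (y' i)‖ := by
    intro y'
    exact norm_prod _ _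
  rw [sum_congr rfl (fun x _ => h x)]
  have h2 := Finset.prod_univ_sum (ι := ι) (κ := fun _ => Bool) (fun _ => (univ : Finset Bool))
    (fun i b => ‖ker (y i) b‖)
  rw [Fintype.piFinset_univ] at h2
  rw [← h2]
  have h3 : ∀ i ∈ (univ : Finset ι), ∑ b : Bool, ‖ker (y i) b‖ = 3 := by
    intro i _
    rw [Fintype.sum_bool, norm_ker, norm_ker]
    cases y i <;> norm_num
  rw [prod_congr rfl h3, prod_const, card_univ]

theorem sum_sq_bound (B : Finset (ι → Bool)) :
    ∑ x : ι → Bool, ‖∑ y ∈ B, chi (ip x y)‖ ^ 2 ≤ 3 ^ Fintype.card ι * B.card := by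
  have h1 : ((∑ x : ι → Bool, ‖∑ y ∈ B, chi (ip x y)‖ ^ 2 : ℝ) : ℂ) =
      ∑ y ∈ B, ∑ y' ∈ B, ∏ i, ker (y i) (y' i) := by
    push_cast
    have h2 : ∀ x : ι → Bool, ((‖∑ y ∈ B, chi (ip x y)‖ : ℂ)) ^ 2 =
        ∑ y ∈ B, ∑ y' ∈ B, chi (ip x y) * (starRingEnd ℂ) (chi (ip x y')) := by
      intro x
      rw [← Complex.mul_conj', map_sum, sum_mul_sum]
    rw [sum_congr rfl (fun x _ => h2 x), sum_comm]
    apply sum_congr rfl
    intro y _
    rw [sum_comm]
    apply sum_congr rfl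
    intro y' _
    exact sum_chi y y'
  have h3 : (∑ x : ι → Bool, ‖∑ y ∈ B, chi (ip x y)‖ ^ 2 : ℝ) =
      ‖∑ y ∈ B, ∑ y' ∈ B, ∏ i, ker (y i) (y' i)‖ := by
    rw [← h1, Complex.norm_real, Real.norm_of_nonneg]
    positivity
  rw [h3]
  calc ‖∑ y ∈ B, ∑ y' ∈ B, ∏ i, ker (y i) (y' i)‖
      ≤ ∑ y ∈ B, ∑ y' ∈ B, ‖∏ i, ker (y i) (y' i)‖ := by
        refine (norm_sum_le _ _).trans (sum_le_sum (fun y _ => norm_sum_le _ _))
    _ ≤ ∑ y ∈ B, ∑ y' : ι → Bool, ‖∏ i, ker (y i) (y' i)‖ := by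
        apply sum_le_sum
        intro y _
        apply sum_le_sum_of_subset_of_nonneg (subset_univ _)
        intro _ _ _
        positivity
    _ = ∑ y ∈ B, (3 : ℝ) ^ Fintype.card ι := by
        apply sum_congr rfl
        intro y _
        exact sum_norm_ker y
    _ = 3 ^ Fintype.card ι * B.card := by
        rw [sum_const, nsmul_eq_mul, mul_comm]

/-- The character sum over a rectangle is small. -/
theorem rect_sum_bound (A B : Finset (ι → Bool)) :
    ‖∑ x ∈ A, ∑ y ∈ B, chi (ip x y)‖ ^ 2 ≤ 12 ^ Fintype.card ι := by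
  have h0 : ‖∑ x ∈ A, ∑ y ∈ B, chi (ip x y)‖ ≤ ∑ x ∈ A, ‖∑ y ∈ B, chi (ip x y)‖ :=
    norm_sum_le _ _
  have h1 : (∑ x ∈ A, ‖∑ y ∈ B, chi (ip x y)‖) ^ 2 ≤
      A.card * ∑ x ∈ A, ‖∑ y ∈ B, chi (ip x y)‖ ^ 2 := sq_sum_le_card_mul_sum_sq
  have h2 : ∑ x ∈ A, ‖∑ y ∈ B, chi (ip x y)‖ ^ 2 ≤
      ∑ x : ι → Bool, ‖∑ y ∈ B, chi (ip x y)‖ ^ 2 := by
    apply sum_le_sum_of_subset_of_nonneg (subset_univ _)
    intro _ _ _
    positivity
  have h3 := sum_sq_bound B
  have hA : (A.card : ℝ) ≤ 2 ^ Fintype.card ι := by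
    have := card_le_univ A
    rw [Fintype.card_fun, Fintype.card_bool] at this
    exact_mod_cast this
  have hB : (B.card : ℝ) ≤ 2 ^ Fintype.card ι := by
    have := card_le_univ B
    rw [Fintype.card_fun, Fintype.card_bool] at this
    exact_mod_cast this
  calc ‖∑ x ∈ A, ∑ y ∈ B, chi (ip x y)‖ ^ 2
      ≤ (∑ x ∈ A, ‖∑ y ∈ B, chi (ip x y)‖) ^ 2 := by
        apply pow_le_pow_left₀ (norm_nonneg _) h0
    _ ≤ A.card * ∑ x ∈ A, ‖∑ y ∈ B, chi (ip x y)‖ ^ 2 := h1
    _ ≤ 2 ^ Fintype.card ι * (3 ^ Fintype.card ι * B.card) := by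
        apply mul_le_mul hA (h2.trans h3) (by positivity) (by positivity)
    _ ≤ 2 ^ Fintype.card ι * (3 ^ Fintype.card ι * 2 ^ Fintype.card ι) := by
        gcongr
    _ = 12 ^ Fintype.card ι := by
        rw [← mul_assoc, ← mul_pow, ← mul_pow]
        norm_num

/-- The number of pairs in `A × B` with given inner product. -/
def cnt (A B : Finset (ι → Bool)) (a : ZMod 3) : ℕ :=
  ((A ×ˢ B).filter (fun p => ip p.1 p.2 = a)).card

omit [DecidableEq ι] in
theorem sum_eq_cnt (A B : Finset (ι → Bool)) :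
    ∑ x ∈ A, ∑ y ∈ B, chi (ip x y) = cnt A B 0 + cnt A B 1 * om + cnt A B 2 * (om * om) := by
  rw [← sum_product']
  have h : ∑ p ∈ A ×ˢ B, chi (ip p.1 p.2) =
      ∑ a : ZMod 3, ∑ p ∈ (A ×ˢ B).filter (fun p => ip p.1 p.2 = a), chi (ip p.1 p.2) :=
    (sum_fiberwise _ _ _).symm
  rw [h]
  have h2 : ∀ a : ZMod 3, ∑ p ∈ (A ×ˢ B).filter (fun p => ip p.1 p.2 = a), chi (ip p.1 p.2) =
      cnt A B a * chi a := by
    intro a
    rw [sum_congr rfl (g := fun _ => chi a), sum_const, nsmul_eq_mul]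
    · rfl
    · intro p hp
      rw [(mem_filter.1 hp).2]
  rw [sum_congr rfl (fun a _ => h2 a)]
  have h3 : ∀ f : ZMod 3 → ℂ, ∑ a, f a = f 0 + f 1 + f 2 := fun f => Fin.sum_univ_three f
  rw [h3]
  have e0 : chi 0 = 1 := chi_zero
  have e1 : chi 1 = om := by
    have : (1 : ZMod 3).val = 1 := by decide
    rw [chi, this, pow_one]
  have e2 : chi 2 = om * om := by
    have : (2 : ZMod 3).val = 2 := by decide
    rw [chi, this]; ring
  rw [e0, e1, e2, mul_one]

theorem sq_le_of_comb (p q r : ℝ) :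
    (p - q) ^ 2 ≤ 2 * ‖((p : ℂ) + q * om + r * (om * om))‖ ^ 2 ∧
    (q - r) ^ 2 ≤ 2 * ‖((p : ℂ) + q * om + r * (om * om))‖ ^ 2 ∧
    (p - r) ^ 2 ≤ 2 * ‖((p : ℂ) + q * om + r * (om * om))‖ ^ 2 := by
  have h : ‖((p : ℂ) + q * om + r * (om * om))‖ ^ 2 =
      (p - (q + r) / 2) ^ 2 + 3 / 4 * (q - r) ^ 2 := by
    rw [← Complex.normSq_eq_norm_sq, om_sq, Complex.normSq_apply]
    simp only [om, Complex.add_re, Complex.add_im, Complex.mul_re, Complex.mul_im,
      Complex.ofReal_re, Complex.ofReal_im]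
    have := sq3
    ring_nf
    have h4 : Real.sqrt 3 ^ 2 = 3 := by rw [sq]; exact this
    rw [h4]
    ring
  rw [h]
  refine ⟨?_, ?_, ?_⟩ <;> nlinarith [sq_nonneg (p - q), sq_nonneg (q - r), sq_nonneg (p - r),
    sq_nonneg (p + q - 2 * r), sq_nonneg (p + r - 2 * q), sq_nonneg (q + r - 2 * p)]

theorem cnt_diff (A B : Finset (ι → Bool)) (a b : ZMod 3) :
    ((cnt A B a : ℝ) - cnt A B b) ^ 2 ≤ 2 * 12 ^ Fintype.card ι := by
  have h1 := rect_sum_bound A B
  rw [sum_eq_cnt] at h1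
  obtain ⟨h2, h3, h4⟩ := sq_le_of_comb (cnt A B 0) (cnt A B 1) (cnt A B 2)
  push_cast at h2 h3 h4
  have h5 : (0 : ℝ) ≤ 12 ^ Fintype.card ι := by positivity
  have h6 : ∀ a b : ZMod 3, ((cnt A B a : ℝ) - cnt A B b) ^ 2 ≤ 2 * 12 ^ Fintype.card ι := by
    have e : ∀ a : ZMod 3, a = 0 ∨ a = 1 ∨ a = 2 := by decide
    intro a b
    rcases e a with rfl | rfl | rfl <;> rcases e b with rfl | rfl | rfl <;> nlinarith
  exact h6 a b

/-- The difference of two classes, restricted to a mixing set: `J` is the set of free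
coordinates. -/
theorem disc_ctx {κ : Type*} [Fintype κ] [DecidableEq κ] (J : Finset κ)
    (S : Finset ((κ → Bool) × (κ → Bool)))
    (hS : ∀ x y x' y' : κ → Bool, (x, y) ∈ S → (x', y') ∈ S → (∀ i ∉ J, x i = x' i) →
      (∀ i ∉ J, y i = y' i) → (x, y') ∈ S) (a b : ZMod 3) :
    |((S.filter (fun p => ip p.1 p.2 = a)).card : ℝ) -
        ((S.filter (fun p => ip p.1 p.2 = b)).card : ℝ)| ≤
      4 ^ (Fintype.card κ - J.card) * (Real.sqrt 2 * Real.sqrt 12 ^ J.card) := by
  classical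
  -- contexts
  let e : (κ → Bool) ≃ ({i // i ∈ J} → Bool) × ({i // ¬ i ∈ J} → Bool) :=
    Equiv.piEquivPiSubtypeProd (fun i => i ∈ J) (fun _ => Bool)
  let A : ({i // ¬ i ∈ J} → Bool) × ({i // ¬ i ∈ J} → Bool) → Finset ({i // i ∈ J} → Bool) :=
    fun w => univ.filter (fun u => ∃ v, (e.symm (u, w.1), e.symm (v, w.2)) ∈ S)
  let B : ({i // ¬ i ∈ J} → Bool) × ({i // ¬ i ∈ J} → Bool) → Finset ({i // i ∈ J} → Bool) :=
    fun w => univ.filter (fun v => ∃ u, (e.symm (u, w.1), e.symm (v, w.2)) ∈ S)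
  have he : ∀ u w i, (hi : i ∉ J) → e.symm (u, w) i = w ⟨i, hi⟩ := by
    intro u w i hi
    simp [e, Equiv.piEquivPiSubtypeProd, hi]
  have he' : ∀ u w i, (hi : i ∈ J) → e.symm (u, w) i = u ⟨i, hi⟩ := by
    intro u w i hi
    simp [e, Equiv.piEquivPiSubtypeProd, hi]
  have hrect : ∀ u v w w', (e.symm (u, w), e.symm (v, w')) ∈ S ↔
      u ∈ A (w, w') ∧ v ∈ B (w, w') := by
    intro u v w w'
    simp only [A, B, mem_filter, mem_univ, true_and]
    constructor
    · intro h
      exact ⟨⟨v, h⟩, ⟨u, h⟩⟩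
    · rintro ⟨⟨v', h1⟩, ⟨u', h2⟩⟩
      apply hS _ _ _ _ h1 h2
      · intro i hi
        rw [he _ _ _ hi, he _ _ _ hi]
      · intro i hi
        rw [he _ _ _ hi, he _ _ _ hi]
  have hip : ∀ u v w w', ip (e.symm (u, w)) (e.symm (v, w')) = ip u v + ip w w' := by
    intro u v w w'
    simp only [ip]
    rw [← Fintype.sum_subtype_add_sum_subtype (fun i => i ∈ J)]
    congr 1
    · apply sum_congr (by ext i; simp)
      intro i _
      rw [he' _ _ _ i.2, he' _ _ _ i.2]
    · apply sum_congr (by ext i; simp)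
      intro i _
      rw [he _ _ _ i.2, he _ _ _ i.2]
  have hcount : ∀ a : ZMod 3, (S.filter (fun p => ip p.1 p.2 = a)).card =
      ∑ w : ({i // ¬ i ∈ J} → Bool) × ({i // ¬ i ∈ J} → Bool),
        cnt (A w) (B w) (a - ip w.1 w.2) := by
    intro a
    have h1 : (S.filter (fun p => ip p.1 p.2 = a)).card =
        ∑ w : ({i // ¬ i ∈ J} → Bool) × ({i // ¬ i ∈ J} → Bool),
          ((S.filter (fun p => ip p.1 p.2 = a)).filter
            (fun p => ((e p.1).2, (e p.2).2) = w)).card := by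
      rw [← card_eq_sum_card_fiberwise]
      intro _ _
      exact mem_coe.2 (mem_univ _)
    rw [h1]
    apply sum_congr rfl
    intro w _
    unfold cnt
    symm
    apply card_bij' (fun p _ => (e.symm (p.1, w.1), e.symm (p.2, w.2)))
      (fun p _ => ((e p.1).1, (e p.2).1))
    · rintro ⟨u, v⟩ h
      simp only [mem_filter, mem_product] at h ⊢
      refine ⟨⟨(hrect _ _ _ _).2 h.1, ?_⟩, ?_⟩
      · rw [hip, h.2]; ring
      · simp
    · rintro ⟨x, y⟩ h
      simp only [mem_filter, mem_product] at h ⊢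
      obtain ⟨⟨h2, h3⟩, h4⟩ := h
      have hx : e.symm ((e x).1, w.1) = x := by
        rw [← h4]; simp
      have hy : e.symm ((e y).1, w.2) = y := by
        rw [← h4]; simp
      refine ⟨(hrect _ _ _ _).1 ?_, ?_⟩
      · rw [hx, hy]; exact h2
      · have h5 := hip (e x).1 (e y).1 w.1 w.2
        rw [hx, hy, h3] at h5
        rw [h5]; ring
    · rintro ⟨u, v⟩ _
      simp
    · rintro ⟨x, y⟩ h
      simp only [mem_filter] at h
      obtain ⟨⟨h2, h3⟩, h4⟩ := h
      have hx : e.symm ((e x).1, w.1) = x := by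
        rw [← h4]; simp
      have hy : e.symm ((e y).1, w.2) = y := by
        rw [← h4]; simp
      simp only
      rw [hx, hy]
  rw [hcount a, hcount b]
  push_cast
  rw [← sum_sub_distrib]
  refine (abs_sum_le_sum_abs _ _).trans ?_
  have hterm : ∀ w : ({i // ¬ i ∈ J} → Bool) × ({i // ¬ i ∈ J} → Bool),
      |(cnt (A w) (B w) (a - ip w.1 w.2) : ℝ) - cnt (A w) (B w) (b - ip w.1 w.2)| ≤
        Real.sqrt 2 * Real.sqrt 12 ^ J.card := by
    intro w
    have h1 := cnt_diff (A w) (B w) (a - ip w.1 w.2) (b - ip w.1 w.2)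
    apply abs_le_of_sq_le_sq
    · refine h1.trans (le_of_eq ?_)
      rw [mul_pow, Real.sq_sqrt (by norm_num), ← pow_mul, mul_comm J.card 2, pow_mul,
        Real.sq_sqrt (by norm_num), Fintype.card_coe]
    · positivity
  refine (sum_le_sum (fun w _ => hterm w)).trans (le_of_eq ?_)
  rw [sum_const, nsmul_eq_mul, card_univ, Fintype.card_prod, Fintype.card_fun, Fintype.card_bool,
    Fintype.card_subtype_compl, Fintype.card_coe]
  push_cast
  rw [← mul_pow]
  norm_num

end

end Pool.Agent.V7H65.RK
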