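import Mathlib
import Pool.Agent.H526R2.GI.Defs
import Pool.Agent.V7H65.RK.Disc

/-! Cyclic ladders with three strands and switches. -/

namespace Pool.Agent.V7H65.RK

open Finset Pool.Agent.H526R2.GI

/-- Positions of the ladder: gadget, block, entry or exit column, strand. -/
abbrev Pos (m : ℕ) := Fin m × Fin 4 × Bool × ZMod 3

/-- The switch of block `b`: even blocks are controlled by `x`, odd ones by `y`. -/
def sw (b : ℕ) (x y : Bool) (s : ZMod 3) : ZMod 3 :=
  if b % 2 = 0 then (if x then 1 - s else s) else (if y then -s else s)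

/-- The composition of the first switches of a gadget. -/
def uu (x y : Bool) : ℕ → ZMod 3 → ZMod 3
  | 0, s => s
  | b + 1, s => sw b x y (uu x y b s)

theorem uu_four (x y : Bool) (s : ZMod 3) : uu x y 4 s = s + if x && y then 1 else 0 := by
  revert x y s
  decide

theorem sw_inj (b : ℕ) (x y : Bool) : Function.Injective (sw b x y) := by
  intro s s' h
  unfold sw at h
  split_ifs at h
  · linear_combination -h
  · exact h
  · linear_combination -h
  · exact h

theorem uu_inj (x y : Bool) (b : ℕ) : Function.Injective (uu x y b) := by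
  induction b with
  | zero => exact fun s s' h => h
  | succ b ih => exact fun s s' h => ih (sw_inj b x y h)

theorem sw_ff (b : ℕ) (s : ZMod 3) : sw b false false s = s := by
  unfold sw
  split_ifs <;> simp_all

/-- One step along the ladder with switches set by `x`, `y` and closing shift `c`. -/
def stp {m : ℕ} (x y : Fin m → Bool) (c : ZMod 3) : Pos m → Pos m
  | (i, b, false, s) => (i, b, true, sw b.val (x i) (y i) s)
  | (i, b, true, s) =>
    if hb : b.val < 3 then (i, ⟨b.val + 1, by omega⟩, false, s)
    else if hi : i.val + 1 < m then (⟨i.val + 1, hi⟩, 0, false, s)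
    else (⟨0, by have := i.2; omega⟩, 0, false, s + c)

/-- The straight ladder with closing shift `r`. -/
def strt (m : ℕ) (r : ZMod 3) : Pos m → Pos m := stp (fun _ => false) (fun _ => false) r

/-- Partial sums. -/
def ps {m : ℕ} (x y : Fin m → Bool) (k : ℕ) : ZMod 3 :=
  ∑ i ∈ univ.filter (fun i : Fin m => i.val < k), if x i && y i then 1 else 0

theorem ps_zero {m : ℕ} (x y : Fin m → Bool) : ps x y 0 = 0 := by
  simp [ps]

theorem ps_all {m : ℕ} (x y : Fin m → Bool) : ps x y m = ip x y := by
  unfold ps ip
  apply sum_congr _ (fun _ _ => rfl)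
  ext i
  simp

theorem ps_succ {m : ℕ} (x y : Fin m → Bool) (i : Fin m) :
    ps x y (i.val + 1) = ps x y i.val + if x i && y i then 1 else 0 := by
  unfold ps
  have h : univ.filter (fun j : Fin m => j.val < i.val + 1) =
      insert i (univ.filter (fun j : Fin m => j.val < i.val)) := by
    ext j
    simp only [mem_filter, mem_univ, true_and, mem_insert, Fin.ext_iff]
    omega
  rw [h, sum_insert (by simp), add_comm]

/-- The relabelling of the positions that straightens the ladder. -/
def tau {m : ℕ} (x y : Fin m → Bool) : Pos m → Pos m :=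
  fun p => (p.1, p.2.1, p.2.2.1,
    uu (x p.1) (y p.1) (p.2.1.val + if p.2.2.1 then 1 else 0) (p.2.2.2 + ps x y p.1.val))

theorem tau_inj {m : ℕ} (x y : Fin m → Bool) : Function.Injective (tau x y) := by
  rintro ⟨i, b, t, s⟩ ⟨i', b', t', s'⟩ h
  simp only [tau, Prod.mk.injEq] at h
  obtain ⟨rfl, rfl, rfl, h⟩ := h
  have h2 := uu_inj _ _ _ h
  have h3 : s = s' := by linear_combination h2
  rw [h3]

theorem tau_bij {m : ℕ} (x y : Fin m → Bool) : Function.Bijective (tau x y) :=
  Finite.injective_iff_bijective.1 (tau_inj x y)

theorem stp_tau {m : ℕ} (x y : Fin m → Bool) (c : ZMod 3) (p : Pos m) :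
    stp x y c (tau x y p) = tau x y (strt m (ip x y + c) p) := by
  obtain ⟨i, b, t, s⟩ := p
  cases t
  · simp only [tau, stp, strt, sw_ff, Bool.false_eq_true, if_false, if_true, add_zero]
    rfl
  · simp only [tau, stp, strt, if_true]
    by_cases hb : b.val < 3
    · simp only [hb, dif_pos, Bool.false_eq_true, if_false, add_zero]
    · have hb3 : b.val = 3 := by omega
      simp only [hb, dif_neg, not_false_eq_true]
      rw [hb3]
      have e : 3 + 1 = 4 := rfl
      rw [e, uu_four]
      by_cases hi : i.val + 1 < m
      · simp only [hi, dif_pos, Bool.false_eq_true, if_false, add_zero]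
        simp only [Prod.mk.injEq, true_and, Fin.val_zero]
        rw [ps_succ]
        simp only [uu]
        ring
      · simp only [hi, dif_neg, not_false_eq_true, Bool.false_eq_true, if_false, add_zero]
        simp only [Prod.mk.injEq, true_and, Fin.val_zero, ps_zero, add_zero, uu]
        have h1 := ps_succ x y i
        have h2 : i.val + 1 = m := by have := i.2; omega
        rw [h2, ps_all] at h1
        rw [h1]
        ring

theorem strt_strand {m : ℕ} (p : Pos m) : (strt m 0 p).2.2.2 = p.2.2.2 := by
  obtain ⟨i, b, t, s⟩ := p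
  cases t
  · simp only [strt, stp, sw_ff]
  · simp only [strt, stp]
    split_ifs <;> simp

theorem strt_ne {m : ℕ} (r : ZMod 3) (p : Pos m) : strt m r p ≠ p := by
  obtain ⟨i, b, t, s⟩ := p
  intro h
  have h2 : (strt m r (i, b, t, s)).2.2.1 = t := by rw [h]
  cases t
  · simp [strt, stp] at h2
  · revert h2
    simp only [strt, stp]
    split_ifs <;> simp

/-- Functions invariant under the ladder with shift one are constant. -/
theorem strt_const {m : ℕ} {α : Type*} (g : Pos m → α) (hg : ∀ p, g (strt m 1 p) = g p) :
    ∀ p q, g p = g q := by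
  have hstep : ∀ (i : Fin m) (b : Fin 4) (t : Bool) (s : ZMod 3),
      g (i, b, t, s) = g (i, 0, false, s) := by
    intro i b t s
    have h1 : ∀ (b : Fin 4) , g (i, b, true, s) = g (i, b, false, s) := by
      intro b
      have := hg (i, b, false, s)
      simp only [strt, stp, sw_ff] at this
      exact this
    have h2 : ∀ (b : ℕ) (hb : b < 3),
        g (i, ⟨b + 1, by omega⟩, false, s) = g (i, ⟨b, by omega⟩, true, s) := by
      intro b hb
      have := hg (i, ⟨b, by omega⟩, true, s)
      simp only [strt, stp, hb, dif_pos] at this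
      exact this
    have h3 : ∀ (b : ℕ) (hb : b < 4), g (i, ⟨b, hb⟩, false, s) = g (i, 0, false, s) := by
      intro b
      induction b with
      | zero => intro hb; rfl
      | succ b ih =>
        intro hb
        rw [h2 b (by omega), h1, ih (by omega)]
    cases t
    · exact h3 b.val b.2
    · rw [h1]
      exact h3 b.val b.2
  rcases Nat.eq_zero_or_pos m with hm | hm
  · subst hm
    intro p
    exact Fin.elim0 p.1
  have hi : ∀ (i : ℕ) (hi : i < m) (s : ZMod 3),
      g (⟨i, hi⟩, 0, false, s) = g (⟨0, hm⟩, 0, false, s) := by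
    intro i
    induction i with
    | zero => intro _ s; rfl
    | succ i ih =>
      intro hi s
      have := hg (⟨i, by omega⟩, 3, true, s)
      simp only [strt, stp] at this
      rw [dif_neg (by decide), dif_pos hi] at this
      rw [this, hstep, ih]
  have hs : ∀ s : ZMod 3, g (⟨0, hm⟩, 0, false, s + 1) = g (⟨0, hm⟩, 0, false, s) := by
    intro s
    have := hg (⟨m - 1, by omega⟩, 3, true, s)
    simp only [strt, stp] at this
    rw [dif_neg (by decide), dif_neg (by omega)] at this
    rw [this, hstep, hi]
  have hs3 : ∀ s : ZMod 3, g (⟨0, hm⟩, 0, false, s) = g (⟨0, hm⟩, 0, false, 0) := by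
    have e : ∀ s : ZMod 3, s = 0 ∨ s = 0 + 1 ∨ s = 0 + 1 + 1 := by decide
    intro s
    rcases e s with rfl | rfl | rfl
    · rfl
    · rw [hs]
    · rw [hs, hs]
  have hall : ∀ p : Pos m, g p = g (⟨0, hm⟩, 0, false, 0) := by
    rintro ⟨i, b, t, s⟩
    rw [hstep, hi i.val i.2 s, hs3]
  intro p q
  rw [hall p, hall q]

theorem stp_inj {m : ℕ} (r : ZMod 3) : Function.Injective (strt m r) := by
  rintro ⟨i, b, t, s⟩ ⟨i', b', t', s'⟩ h
  cases t <;> cases t'
  · simp only [strt, stp, sw_ff, Prod.mk.injEq] at h ⊢
    tauto
  · simp only [strt, stp, sw_ff] at h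
    split_ifs at h <;> simp at h
  · simp only [strt, stp, sw_ff] at h
    split_ifs at h <;> simp at h
  · simp only [strt, stp, sw_ff] at h
    split_ifs at h <;> simp only [Prod.mk.injEq, Fin.ext_iff, true_and, Fin.val_zero] at h ⊢ <;>
      first
      | omega
      | (refine ⟨by omega, by omega, ?_⟩; linear_combination h.2.2)
      | (refine ⟨by omega, by omega, ?_⟩; linear_combination h.2)
      | (refine ⟨by omega, by omega, ?_⟩; linear_combination h)

end Pool.Agent.V7H65.RK
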