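import Mathlib
import Pool.Agent.V7H65.RK.Cyc

/-! Graphs obtained by placing the ladder on the vertices. -/

namespace Pool.Agent.V7H65.RK

open Finset Pool.Agent.H526R2.GI

variable {n m : ℕ}

/-- Every vertex has at most two neighbours. -/
def DegTwo (x : Pr n → Bool) : Prop := ∀ v, ((graph x).neighborSet v).ncard ≤ 2

/-- The adjacency bits of the ladder with step function `F` placed by `f`. -/
noncomputable def inp (f : Pos m → Fin n) (F : Pos m → Pos m) : Pr n → Bool :=
  open Classical in fun e => decide (∃ p, e.1 = s(f p, f (F p)))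

theorem inp_iff (f : Pos m → Fin n) (F : Pos m → Pos m) (e : Pr n) :
    inp f F e = true ↔ ∃ p, e.1 = s(f p, f (F p)) := by
  simp [inp]

theorem adj_iff (f : Pos m → Fin n) (F : Pos m → Pos m) (u v : Fin n) :
    (graph (inp f F)).Adj u v ↔ u ≠ v ∧ ∃ p, s(u, v) = s(f p, f (F p)) := by
  rw [graph_adj]
  simp only [inp_iff]
  simp

theorem inp_tau (f : Pos m → Fin n) (x y : Fin m → Bool) (c : ZMod 3) :
    inp f (stp x y c) = inp (f ∘ tau x y) (strt m (ip x y + c)) := by
  funext e
  rw [Bool.eq_iff_iff, inp_iff, inp_iff]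
  constructor
  · rintro ⟨p, hp⟩
    obtain ⟨q, rfl⟩ := (tau_bij x y).2 p
    refine ⟨q, ?_⟩
    rw [hp, stp_tau]
    rfl
  · rintro ⟨p, hp⟩
    refine ⟨tau x y p, ?_⟩
    rw [hp, stp_tau]
    rfl

/-- Placing the same ladder in two ways gives isomorphic graphs. -/
theorem iso_inp (f g : Pos m → Fin n) (hf : Function.Injective f) (hg : Function.Injective g)
    (F : Pos m → Pos m) : Nonempty (graph (inp f F) ≃g graph (inp g F)) := by
  classical
  -- a permutation carrying `f` to `g`
  let e : {v // v ∈ Set.range f} ≃ {v // v ∈ Set.range g} :=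
    (Equiv.ofInjective f hf).symm.trans (Equiv.ofInjective g hg)
  let σ : Equiv.Perm (Fin n) := e.extendSubtype
  have hσ : ∀ p, σ (f p) = g p := by
    intro p
    have h1 : σ (f p) = e ⟨f p, ⟨p, rfl⟩⟩ := Equiv.extendSubtype_apply_of_mem e _ _
    rw [h1]
    simp only [e, Equiv.trans_apply]
    have h2 : (Equiv.ofInjective f hf).symm ⟨f p, ⟨p, rfl⟩⟩ = p := by
      rw [Equiv.symm_apply_eq]
      rfl
    rw [h2]
    rfl
  refine ⟨⟨σ, ?_⟩⟩
  intro u v
  rw [adj_iff, adj_iff]
  constructor
  · rintro ⟨h1, p, hp⟩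
    refine ⟨fun h => h1 (by rw [h]), p, ?_⟩
    rw [← hσ, ← hσ, ← Sym2.map_mk, ← Sym2.map_mk] at hp
    exact Sym2.map.injective σ.injective hp
  · rintro ⟨h1, p, hp⟩
    refine ⟨fun h => h1 (σ.injective h), p, ?_⟩
    rw [← hσ, ← hσ, ← Sym2.map_mk, ← Sym2.map_mk, hp]

/-- One long cycle is not isomorphic to three short ones. -/
theorem not_iso (hm : 0 < m) (f g : Pos m → Fin n) (hf : Function.Injective f)
    (hg : Function.Injective g) :
    ¬ Nonempty (graph (inp f (strt m 1)) ≃g graph (inp g (strt m 0))) := by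
  classical
  rintro ⟨φ⟩
  let col : Fin n → Prop := fun v => ∃ p : Pos m, p.2.2.2 = 0 ∧ g p = v
  have hcol : ∀ u v, (graph (inp g (strt m 0))).Adj u v → (col u ↔ col v) := by
    intro u v h
    obtain ⟨_, p, hp⟩ := (adj_iff _ _ _ _).1 h
    have hs := strt_strand p
    have h1 : col (g p) ↔ col (g (strt m 0 p)) := by
      constructor
      · rintro ⟨q, hq, hq2⟩
        have := hg hq2
        subst this
        exact ⟨strt m 0 q, by rw [hs, hq], rfl⟩
      · rintro ⟨q, hq, hq2⟩
        have := hg hq2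
        subst this
        exact ⟨p, by rw [← hs, hq], rfl⟩
    rcases Sym2.eq_iff.1 hp with ⟨rfl, rfl⟩ | ⟨rfl, rfl⟩
    · exact h1
    · exact h1.symm
  have hinv : ∀ p, (col (φ (f (strt m 1 p)))) = (col (φ (f p))) := by
    intro p
    apply propext
    apply hcol
    rw [φ.map_adj_iff, adj_iff]
    refine ⟨fun h => strt_ne 1 p (hf h), p, ?_⟩
    rw [Sym2.eq_swap]
  have hconst := strt_const (fun p => col (φ (f p))) hinv
  have hpt : ∀ q : Pos m, ∃ p, φ (f p) = g q := by
    intro q
    have h1 : (graph (inp g (strt m 0))).Adj (g q) (g (strt m 0 q)) := by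
      rw [adj_iff]
      exact ⟨fun h => strt_ne 0 q (hg h.symm), q, rfl⟩
    have h2 : (graph (inp f (strt m 1))).Adj (φ.symm (g q)) (φ.symm (g (strt m 0 q))) := by
      rw [← φ.map_adj_iff]
      simpa using h1
    obtain ⟨_, p, hp⟩ := (adj_iff _ _ _ _).1 h2
    rcases Sym2.eq_iff.1 hp with ⟨h3, _⟩ | ⟨h3, _⟩
    · exact ⟨p, by rw [← h3]; simp⟩
    · exact ⟨strt m 1 p, by rw [← h3]; simp⟩
  obtain ⟨p, hp⟩ := hpt (⟨0, hm⟩, 0, false, 0)
  obtain ⟨q, hq⟩ := hpt (⟨0, hm⟩, 0, false, 1)
  have h1 := hconst p q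
  simp only [hp, hq] at h1
  have h2 : col (g (⟨0, hm⟩, 0, false, 0)) := ⟨_, rfl, rfl⟩
  rw [h1] at h2
  obtain ⟨r, hr, hr2⟩ := h2
  have := hg hr2
  subst this
  exact absurd hr (by simp only; decide)

theorem degTwo_inp (f : Pos m → Fin n) (hf : Function.Injective f) (r : ZMod 3) :
    DegTwo (inp f (strt m r)) := by
  classical
  intro v
  by_cases hv : ∃ p, f p = v
  · obtain ⟨p, rfl⟩ := hv
    have hinj : Function.Injective (strt m r) := stp_inj r
    obtain ⟨q, hq⟩ := (Finite.injective_iff_bijective.1 hinj).2 p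
    have hsub : (graph (inp f (strt m r))).neighborSet (f p) ⊆ {f (strt m r p), f q} := by
      intro w hw
      obtain ⟨_, t, ht⟩ := (adj_iff _ _ _ _).1 hw
      rcases Sym2.eq_iff.1 ht with ⟨h1, h2⟩ | ⟨h1, h2⟩
      · have := hf h1
        subst this
        left
        exact h2
      · have := hf h1
        have h3 : t = q := hinj (by rw [hq, ← this])
        right
        rw [h2, h3]
        rfl
    exact (Set.ncard_le_ncard hsub (Set.toFinite _)).trans ((Set.ncard_insert_le _ _).trans (by rw [Set.ncard_singleton]))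
  · have : (graph (inp f (strt m r))).neighborSet v = ∅ := by
      ext w
      simp only [SimpleGraph.mem_neighborSet, Set.mem_empty_iff_false, iff_false]
      rw [adj_iff]
      rintro ⟨_, t, ht⟩
      rcases Sym2.eq_iff.1 ht with ⟨h1, h2⟩ | ⟨h1, h2⟩
      · exact hv ⟨_, h1.symm⟩
      · exact hv ⟨_, h1.symm⟩
    rw [this]
    simp

/-- The pair `{u, v}` belongs to `X`. -/
def InX (X : Finset (Pr n)) (u v : Fin n) : Prop := ∃ h : ¬ (s(u, v)).IsDiag, ⟨s(u, v), h⟩ ∈ X

/-- All switch variables of gadget `i` are in the right sets. -/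
def Good (X Y : Finset (Pr n)) (g : Fin 4 → Bool × ZMod 3 → Fin n) : Prop :=
  ∀ b : Fin 4,
    (b.val % 2 = 0 → ∀ s s' : ZMod 3, s ≠ 2 → s' ≠ 2 → InX X (g b (false, s)) (g b (true, s'))) ∧
    (b.val % 2 = 1 → ∀ s s' : ZMod 3, s ≠ 0 → s' ≠ 0 → InX Y (g b (false, s)) (g b (true, s')))

/-- The part of `f` on gadget `i`. -/
def cur (f : Pos m → Fin n) (i : Fin m) : Fin 4 → Bool × ZMod 3 → Fin n :=
  fun b p => f (i, b, p.1, p.2)

theorem sw_even_eq (b : ℕ) (hb : b % 2 = 0) (x y y' : Bool) (s : ZMod 3) :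
    sw b x y s = sw b x y' s := by
  simp [sw, hb]

theorem sw_odd_eq (b : ℕ) (hb : b % 2 ≠ 0) (x x' y : Bool) (s : ZMod 3) :
    sw b x y s = sw b x' y s := by
  simp [sw, hb]

theorem sw_two (b : ℕ) (hb : b % 2 = 0) (x y : Bool) : sw b x y 2 = 2 := by
  unfold sw
  rw [if_pos hb]
  cases x
  · rfl
  · decide

theorem sw_zero (b : ℕ) (hb : b % 2 ≠ 0) (x y : Bool) : sw b x y 0 = 0 := by
  unfold sw
  rw [if_neg hb]
  cases y
  · rfl
  · decide

/-- Outside of `X` the good `x`-bits do not matter. -/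
theorem indep_x {X Y : Finset (Pr n)} (f : Pos m → Fin n) (c : ZMod 3) (x x' y : Fin m → Bool)
    (h : ∀ i, x i ≠ x' i → Good X Y (cur f i)) (e : Pr n) (he : e ∉ X)
    (h1 : inp f (stp x y c) e = true) : inp f (stp x' y c) e = true := by
  rw [inp_iff] at h1 ⊢
  obtain ⟨⟨i, b, t, s⟩, hp⟩ := h1
  cases t
  · by_cases hx : x i = x' i
    · exact ⟨(i, b, false, s), by rw [hp]; simp only [stp, hx]⟩
    by_cases hb : b.val % 2 = 0
    · by_cases hs : s = 2
      · subst hs
        refine ⟨(i, b, false, 2), ?_⟩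
        rw [hp]
        simp only [stp, sw_two _ hb]
      · exfalso
        have hg := (h i hx b).1 hb s (sw b.val (x i) (y i) s) hs (by
          intro h2
          exact hs (sw_inj _ _ _ (h2.trans (sw_two _ hb _ _).symm)))
        obtain ⟨h2, h3⟩ := hg
        apply he
        convert h3 using 1
        exact Subtype.ext hp
    · refine ⟨(i, b, false, s), ?_⟩
      rw [hp]
      simp only [stp]
      rw [sw_odd_eq b.val hb (x i) (x' i)]
  · exact ⟨(i, b, true, s), hp⟩

/-- Outside of `Y` the good `y`-bits do not matter. -/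
theorem indep_y {X Y : Finset (Pr n)} (f : Pos m → Fin n) (c : ZMod 3) (x y y' : Fin m → Bool)
    (h : ∀ i, y i ≠ y' i → Good X Y (cur f i)) (e : Pr n) (he : e ∉ Y)
    (h1 : inp f (stp x y c) e = true) : inp f (stp x y' c) e = true := by
  rw [inp_iff] at h1 ⊢
  obtain ⟨⟨i, b, t, s⟩, hp⟩ := h1
  cases t
  · by_cases hy : y i = y' i
    · exact ⟨(i, b, false, s), by rw [hp]; simp only [stp, hy]⟩
    by_cases hb : b.val % 2 = 0
    · refine ⟨(i, b, false, s), ?_⟩
      rw [hp]
      simp only [stp]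
      rw [sw_even_eq b.val hb (x i) (y i) (y' i)]
    · by_cases hs : s = 0
      · subst hs
        refine ⟨(i, b, false, 0), ?_⟩
        rw [hp]
        simp only [stp, sw_zero _ hb]
      · exfalso
        have hg := (h i hy b).2 (by omega) s (sw b.val (x i) (y i) s) hs (by
          intro h2
          exact hs (sw_inj _ _ _ (h2.trans (sw_zero _ hb _ _).symm)))
        obtain ⟨h2, h3⟩ := hg
        apply he
        convert h3 using 1
        exact Subtype.ext hp
  · exact ⟨(i, b, true, s), hp⟩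

/-- A set of inputs closed under mixing with respect to `X` and `Y`. -/
def Mixing (X Y : Finset (Pr n)) (R : (Pr n → Bool) → Prop) : Prop :=
  ∀ z z' : Pr n → Bool, R z → R z' → (∀ e, e ∉ X → e ∉ Y → z e = z' e) →
    R (fun e => if e ∈ X then z e else z' e)

theorem mixing_inp {X Y : Finset (Pr n)} (hXY : Disjoint X Y) {R : (Pr n → Bool) → Prop}
    (hR : Mixing X Y R) (f : Pos m → Fin n) (c : ZMod 3) (x y x' y' : Fin m → Bool)
    (h1 : R (inp f (stp x y c))) (h2 : R (inp f (stp x' y' c)))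
    (hx : ∀ i, ¬ Good X Y (cur f i) → x i = x' i) (hy : ∀ i, ¬ Good X Y (cur f i) → y i = y' i) :
    R (inp f (stp x y' c)) := by
  have hX : ∀ (y : Fin m → Bool) (e : Pr n), e ∉ X →
      inp f (stp x y c) e = inp f (stp x' y c) e := by
    intro y e he
    rw [Bool.eq_iff_iff]
    constructor
    · refine indep_x (X := X) (Y := Y) f c x x' y ?_ e he
      intro i hi
      by_contra h
      exact hi (hx i h)
    · refine indep_x (X := X) (Y := Y) f c x' x y ?_ e he
      intro i hi
      by_contra h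
      exact hi (hx i h).symm
  have hY : ∀ (x : Fin m → Bool) (e : Pr n), e ∉ Y →
      inp f (stp x y c) e = inp f (stp x y' c) e := by
    intro x e he
    rw [Bool.eq_iff_iff]
    constructor
    · refine indep_y (X := X) (Y := Y) f c x y y' ?_ e he
      intro i hi
      by_contra h
      exact hi (hy i h)
    · refine indep_y (X := X) (Y := Y) f c x y' y ?_ e he
      intro i hi
      by_contra h
      exact hi (hy i h).symm
  have h3 := hR _ _ h1 h2 (by
    intro e he1 he2
    rw [hX y e he1, hY x' e he2])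
  convert h3 using 1
  funext e
  by_cases he : e ∈ X
  · rw [if_pos he, hY x e (disjoint_left.1 hXY he)]
  · rw [if_neg he, hX y' e he]

end Pool.Agent.V7H65.RK
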