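import Mathlib
import Pool.Agent.V7H65.RK.Emb

/-! A random placement of the ladder has many good gadgets. -/

namespace Pool.Agent.V7H65.RK

open Finset Pool.Agent.H526R2.GI

section quad

variable {V : Type*} [Fintype V] [DecidableEq V] (E : V → V → Prop) [DecidableRel E]

/-- The number of edges. -/
def ecard : ℕ := ((univ : Finset (V × V)).filter (fun p => E p.1 p.2)).card

/-- Homomorphisms from the four-cycle. -/
def quads : Finset ((V × V) × (V × V)) :=
  univ.filter (fun q => E q.1.1 q.2.1 ∧ E q.1.1 q.2.2 ∧ E q.1.2 q.2.1 ∧ E q.1.2 q.2.2)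

omit [DecidableEq V] in
theorem ecard_eq : ecard E = ∑ a, (univ.filter (fun c => E a c)).card := by
  unfold ecard
  rw [card_filter, ← univ_product_univ, sum_product]
  apply sum_congr rfl
  intro a _
  rw [card_filter]

omit [DecidableEq V] in
theorem quads_bound : ecard E ^ 4 ≤ Fintype.card V ^ 4 * (quads E).card := by
  set n := Fintype.card V with hn
  have h1 : ecard E ^ 2 ≤ n * ∑ a, (univ.filter (fun c => E a c)).card ^ 2 := by
    rw [ecard_eq]
    exact sq_sum_le_card_mul_sum_sq
  have h2 : ∑ a, (univ.filter (fun c => E a c)).card ^ 2 =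
      ∑ p : V × V, (univ.filter (fun a => E a p.1 ∧ E a p.2)).card := by
    have e1 : ∀ a : V, (univ.filter (fun c => E a c)).card ^ 2 =
        ∑ p : V × V, if E a p.1 ∧ E a p.2 then 1 else 0 := by
      intro a
      rw [sq, ← card_product, ← card_filter]
      congr 1
      ext p
      simp
    have e2 : ∀ p : V × V, (univ.filter (fun a => E a p.1 ∧ E a p.2)).card =
        ∑ a, if E a p.1 ∧ E a p.2 then 1 else 0 := by
      intro p
      rw [card_filter]
    rw [sum_congr rfl (fun a _ => e1 a), sum_congr rfl (fun p _ => e2 p), sum_comm]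
  have h3 : (∑ p : V × V, (univ.filter (fun a => E a p.1 ∧ E a p.2)).card) ^ 2 ≤
      n ^ 2 * ∑ p : V × V, (univ.filter (fun a => E a p.1 ∧ E a p.2)).card ^ 2 := by
    have := sq_sum_le_card_mul_sum_sq (s := (univ : Finset (V × V)))
      (f := fun p => (univ.filter (fun a => E a p.1 ∧ E a p.2)).card)
    rw [card_univ, Fintype.card_prod, ← hn, ← sq] at this
    exact this
  have h4 : ∑ p : V × V, (univ.filter (fun a => E a p.1 ∧ E a p.2)).card ^ 2 =
      (quads E).card := by
    unfold quads
    have e1 : ∀ p : V × V, (univ.filter (fun a => E a p.1 ∧ E a p.2)).card ^ 2 =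
        ∑ q : V × V, if E q.1 p.1 ∧ E q.1 p.2 ∧ E q.2 p.1 ∧ E q.2 p.2 then 1 else 0 := by
      intro p
      rw [sq, ← card_product, ← card_filter]
      congr 1
      ext q
      simp
      tauto
    rw [sum_congr rfl (fun p _ => e1 p), sum_comm, card_filter]
    conv_rhs => rw [Fintype.sum_prod_type]
  calc ecard E ^ 4 = (ecard E ^ 2) ^ 2 := by ring
    _ ≤ (n * ∑ a, (univ.filter (fun c => E a c)).card ^ 2) ^ 2 := Nat.pow_le_pow_left h1 2
    _ = n ^ 2 * (∑ p : V × V, (univ.filter (fun a => E a p.1 ∧ E a p.2)).card) ^ 2 := by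
        rw [h2]; ring
    _ ≤ n ^ 2 * (n ^ 2 * (quads E).card) := by
        rw [← h4]
        exact Nat.mul_le_mul_left _ h3
    _ = n ^ 4 * (quads E).card := by ring

/-- Placements of one block whose switch, avoiding the strand `t`, is contained in `E`. -/
def blks (t : ZMod 3) : Finset (Bool × ZMod 3 → V) :=
  univ.filter (fun h => ∀ s s' : ZMod 3, s ≠ t → s' ≠ t → E (h (false, s)) (h (true, s')))

omit [DecidableEq V] in
theorem blks_card (t : ZMod 3) :
    Fintype.card V ^ 2 * (quads E).card ≤ (blks E t).card := by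
  have h : Fintype.card V ^ 2 * (quads E).card =
      ((univ : Finset (V × V)) ×ˢ quads E).card := by
    rw [card_product, card_univ, Fintype.card_prod, sq]
  rw [h]
  apply card_le_card_of_injOn (fun q p =>
    if p.2 = t then (if p.1 then q.1.2 else q.1.1)
    else if p.2 = t + 1 then (if p.1 then q.2.2.1 else q.2.1.1)
    else (if p.1 then q.2.2.2 else q.2.1.2))
  · rintro ⟨⟨v, w⟩, ⟨a, b⟩, ⟨c, d⟩⟩ hq
    simp only [coe_product, Set.mem_prod, mem_coe, quads, mem_filter, mem_univ, true_and] at hq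
    simp only [blks, coe_filter, mem_univ, true_and, Set.mem_ofPred_eq]
    intro s s' hs hs'
    simp only [hs, hs', if_false, Bool.false_eq_true, if_true]
    obtain ⟨h1, h2, h3, h4⟩ := hq
    split_ifs <;> assumption
  · rintro ⟨⟨v, w⟩, ⟨a, b⟩, ⟨c, d⟩⟩ _ ⟨⟨v', w'⟩, ⟨a', b'⟩, ⟨c', d'⟩⟩ _ heq
    have g1 : t + 1 ≠ t := (show ∀ t : ZMod 3, t + 1 ≠ t by decide) t
    have g2 : t + 2 ≠ t := (show ∀ t : ZMod 3, t + 2 ≠ t by decide) t
    have g3 : t + 2 ≠ t + 1 := (show ∀ t : ZMod 3, t + 2 ≠ t + 1 by decide) t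
    have e1 := congrFun heq (false, t)
    have e2 := congrFun heq (true, t)
    have e3 := congrFun heq (false, t + 1)
    have e4 := congrFun heq (true, t + 1)
    have e5 := congrFun heq (false, t + 2)
    have e6 := congrFun heq (true, t + 2)
    simp only [if_true, Bool.false_eq_true, if_false, g1, g2, g3] at e1 e2 e3 e4 e5 e6
    rw [e1, e2, e3, e4, e5, e6]

omit [DecidableEq V] in
theorem blks_bound (t : ZMod 3) (hV : 0 < Fintype.card V) (K : ℕ)
    (hK : Fintype.card V ^ 2 ≤ K * ecard E) :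
    Fintype.card V ^ 6 ≤ K ^ 4 * (blks E t).card := by
  set n := Fintype.card V with hn
  have h1 := quads_bound E
  have h2 := blks_card E t
  have h3 : n ^ 2 * n ^ 6 ≤ n ^ 2 * (K ^ 4 * (blks E t).card) := by
    calc n ^ 2 * n ^ 6 = (n ^ 2) ^ 4 := by ring
      _ ≤ (K * ecard E) ^ 4 := Nat.pow_le_pow_left hK 4
      _ = K ^ 4 * ecard E ^ 4 := by ring
      _ ≤ K ^ 4 * (n ^ 4 * (quads E).card) := Nat.mul_le_mul_left _ h1
      _ = n ^ 2 * (K ^ 4 * (n ^ 2 * (quads E).card)) := by ring
      _ ≤ n ^ 2 * (K ^ 4 * (blks E t).card) := by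
          apply Nat.mul_le_mul_left
          exact Nat.mul_le_mul_left _ h2
  exact Nat.le_of_mul_le_mul_left h3 (by positivity)

end quad

variable {n m : ℕ}

open Classical in
theorem ecard_InX (X : Finset (Pr n)) : X.card ≤ ecard (InX X) := by
  unfold ecard
  apply card_le_card_of_injOn (fun e => e.1.out)
  · intro e he
    simp only [coe_filter, mem_univ, true_and, Set.mem_ofPred_eq]
    have h : s(e.1.out.1, e.1.out.2) = e.1 := by
      exact Quot.out_eq e.1
    refine ⟨by rw [h]; exact e.2, ?_⟩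
    have h' : (⟨s(e.1.out.1, e.1.out.2), by rw [h]; exact e.2⟩ : Pr n) = e := Subtype.ext h
    rw [h']
    exact he
  · intro e _ e' _ h
    apply Subtype.ext
    have h1 : Quot.mk _ (Quot.out e.1) = e.1 := Quot.out_eq e.1
    have h2 : Quot.mk _ (Quot.out e'.1) = e'.1 := Quot.out_eq e'.1
    have h3 : Quot.out e.1 = Quot.out e'.1 := h
    rw [← h1, ← h2, h3]

open Classical in
/-- The good placements of a gadget. -/
noncomputable def goods (X Y : Finset (Pr n)) : Finset (Fin 4 → Bool × ZMod 3 → Fin n) :=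
  univ.filter (fun g => Good X Y g)

open Classical in
theorem goods_card (X Y : Finset (Pr n)) (hn : 0 < n) (K : ℕ) (hX : n ^ 2 ≤ K * X.card)
    (hY : n ^ 2 ≤ K * Y.card) : n ^ 24 ≤ K ^ 16 * (goods X Y).card := by
  have h1 : goods X Y = Fintype.piFinset (fun b : Fin 4 =>
      if b.val % 2 = 0 then blks (InX X) 2 else blks (InX Y) 0) := by
    ext g
    rw [goods, mem_filter, Fintype.mem_piFinset]
    simp only [mem_univ, true_and, Good]
    apply forall_congr'
    intro b
    by_cases hb : b.val % 2 = 0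
    · simp only [hb, if_true, blks, mem_filter, mem_univ, true_and, forall_const]
      constructor
      · intro h
        exact h.1
      · intro h
        exact ⟨h, fun h' => absurd h' (by norm_num)⟩
    · have hb' : b.val % 2 = 1 := by omega
      rw [if_neg hb, blks, mem_filter]
      constructor
      · intro h
        exact ⟨mem_univ _, h.2 hb'⟩
      · intro h
        exact ⟨fun h' => absurd h' hb, fun _ => h.2⟩
  have hX' := blks_bound (InX X) 2 (by simpa using hn) K (by
    rw [Fintype.card_fin]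
    exact hX.trans (Nat.mul_le_mul_left _ (ecard_InX X)))
  have hY' := blks_bound (InX Y) 0 (by simpa using hn) K (by
    rw [Fintype.card_fin]
    exact hY.trans (Nat.mul_le_mul_left _ (ecard_InX Y)))
  rw [Fintype.card_fin] at hX' hY'
  rw [h1, Fintype.card_piFinset, Fin.prod_univ_four]
  have e0 : (0 : Fin 4).val % 2 = 0 := rfl
  have e1 : ¬ (1 : Fin 4).val % 2 = 0 := by decide
  have e2 : (2 : Fin 4).val % 2 = 0 := rfl
  have e3 : ¬ (3 : Fin 4).val % 2 = 0 := by decide
  rw [if_pos e0, if_neg e1, if_pos e2, if_neg e3]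
  calc n ^ 24 = n ^ 6 * n ^ 6 * n ^ 6 * n ^ 6 := by ring
    _ ≤ (K ^ 4 * (blks (InX X) 2).card) * (K ^ 4 * (blks (InX Y) 0).card) *
        (K ^ 4 * (blks (InX X) 2).card) * (K ^ 4 * (blks (InX Y) 0).card) := by gcongr
    _ = _ := by ring

open Classical in
/-- The good gadgets of a placement. -/
noncomputable def gset (X Y : Finset (Pr n)) (f : Pos m → Fin n) : Finset (Fin m) :=
  univ.filter (fun i => Good X Y (cur f i))

theorem cur_inj : Function.Injective (cur : (Pos m → Fin n) → _) := by
  intro f g h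
  funext ⟨i, b, t, s⟩
  have := congrFun (congrFun (congrFun h i) b) (t, s)
  exact this

open Classical in
/-- Few placements have few good gadgets. -/
theorem tail_bound (X Y : Finset (Pr n)) (hn : 0 < n) (K : ℕ) (hX : n ^ 2 ≤ K * X.card)
    (hY : n ^ 2 ≤ K * Y.card) (g₀ : ℕ) :
    (((univ : Finset (Pos m → Fin n)).filter (fun f => (gset X Y f).card < g₀)).card : ℝ) ≤
      2 ^ g₀ * (1 - 1 / (2 * (K : ℝ) ^ 16)) ^ m * (n : ℝ) ^ (24 * m) := by
  have hgood := goods_card X Y hn K hX hY
  have hKpos : 0 < K := by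
    rcases Nat.eq_zero_or_pos K with h | h
    · rw [h] at hX
      have : 0 < n ^ 2 := by positivity
      omega
    · exact h
  let A := Fin 4 → Bool × ZMod 3 → Fin n
  have hA : Fintype.card A = n ^ 24 := by
    simp only [A, Fintype.card_fun, Fintype.card_prod, Fintype.card_bool, ZMod.card,
      Fintype.card_fin]
    rw [← pow_mul]
  let w : A → ℝ := fun a => if Good X Y a then 1 / 2 else 1
  have hw : ∀ a, 0 ≤ w a := by
    intro a
    simp only [w]
    split_ifs <;> norm_num
  have hsum : ∑ a : A, w a = (n : ℝ) ^ 24 - (goods X Y).card / 2 := by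
    have e1 : ∀ a : A, w a = 1 - (if Good X Y a then 1 / 2 else 0) := by
      intro a
      simp only [w]
      split_ifs <;> norm_num
    rw [sum_congr rfl (fun a _ => e1 a), sum_sub_distrib, sum_const, card_univ, hA, ← sum_filter,
      sum_const]
    simp only [goods, nsmul_eq_mul]
    push_cast
    ring
  have hsum2 : ∑ a : A, w a ≤ (n : ℝ) ^ 24 * (1 - 1 / (2 * (K : ℝ) ^ 16)) := by
    rw [hsum]
    have h1 : (n : ℝ) ^ 24 ≤ (K : ℝ) ^ 16 * (goods X Y).card := by exact_mod_cast hgood
    have h2 : (0 : ℝ) < (K : ℝ) ^ 16 := by positivity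
    have h3 : (n : ℝ) ^ 24 / (K : ℝ) ^ 16 ≤ (goods X Y).card := by
      rw [div_le_iff₀ h2]
      linarith
    have h4 : (n : ℝ) ^ 24 * (1 - 1 / (2 * (K : ℝ) ^ 16)) =
        (n : ℝ) ^ 24 - (n : ℝ) ^ 24 / (K : ℝ) ^ 16 / 2 := by
      field_simp
    rw [h4]
    linarith
  have hprod : ∑ F : Fin m → A, ∏ i, w (F i) = (∑ a : A, w a) ^ m := by
    have := Finset.prod_univ_sum (ι := Fin m) (κ := fun _ => A) (fun _ => (univ : Finset A))
      (fun _ a => w a)
    rw [Fintype.piFinset_univ] at this
    rw [← this, prod_const, card_univ, Fintype.card_fin]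
  have hone : ∀ F : Fin m → A, ∏ i, w (F i) =
      (1 / 2) ^ (univ.filter (fun i => Good X Y (F i))).card := by
    intro F
    simp only [w]
    rw [prod_ite, prod_const, prod_const_one, mul_one]
  have hkey : (((univ : Finset (Pos m → Fin n)).filter (fun f => (gset X Y f).card < g₀)).card : ℝ)
      * (1 / 2) ^ g₀ ≤ (∑ a : A, w a) ^ m := by
    rw [← hprod, ← nsmul_eq_mul, ← sum_const]
    calc ∑ f ∈ (univ : Finset (Pos m → Fin n)).filter (fun f => (gset X Y f).card < g₀),
          (1 / 2 : ℝ) ^ g₀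
        ≤ ∑ f ∈ (univ : Finset (Pos m → Fin n)).filter (fun f => (gset X Y f).card < g₀),
          ∏ i, w (cur f i) := by
          apply sum_le_sum
          intro f hf
          rw [mem_filter] at hf
          rw [hone]
          apply pow_le_pow_of_le_one (by norm_num) (by norm_num)
          exact hf.2.le
      _ ≤ ∑ f : Pos m → Fin n, ∏ i, w (cur f i) := by
          apply sum_le_sum_of_subset_of_nonneg (subset_univ _)
          intro f _ _
          exact prod_nonneg (fun i _ => hw _)
      _ = ∑ F ∈ univ.map ⟨_, cur_inj (n := n) (m := m)⟩, ∏ i, w (F i) := by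
          rw [sum_map]
          rfl
      _ ≤ ∑ F : Fin m → A, ∏ i, w (F i) := by
          apply sum_le_sum_of_subset_of_nonneg (subset_univ _)
          intro f _ _
          exact prod_nonneg (fun i _ => hw _)
  have hfin : (∑ a : A, w a) ^ m ≤
      ((n : ℝ) ^ 24 * (1 - 1 / (2 * (K : ℝ) ^ 16))) ^ m := by
    apply pow_le_pow_left₀ (sum_nonneg (fun a _ => hw a)) hsum2
  have h2 : (0 : ℝ) < 2 ^ g₀ := by positivity
  calc (((univ : Finset (Pos m → Fin n)).filter (fun f => (gset X Y f).card < g₀)).card : ℝ)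
      = 2 ^ g₀ * ((((univ : Finset (Pos m → Fin n)).filter
        (fun f => (gset X Y f).card < g₀)).card : ℝ) * (1 / 2) ^ g₀) := by
        rw [one_div, inv_pow]
        field_simp
    _ ≤ 2 ^ g₀ * (((n : ℝ) ^ 24 * (1 - 1 / (2 * (K : ℝ) ^ 16))) ^ m) := by
        apply mul_le_mul_of_nonneg_left (hkey.trans hfin) h2.le
    _ = _ := by
        rw [mul_pow, ← pow_mul]
        ring

end Pool.Agent.V7H65.RK
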