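import Mathlib
import Pool.Agent.H526R2.GI.Rect
import Pool.Agent.V7H65.RK.Meas
import Pool.Agent.V7H65.RK.Dec
import Pool.Agent.V7H65.RK.Arith

/-! Read-`k` programs and graph isomorphism. -/

namespace Pool.Agent.V7H65.RK

open Finset Pool.Agent.H526R2.GI

variable {n m s k : ℕ}

/-- Both graphs have maximum degree at most two. -/
def DegTwoPair (z : Var n → Bool) : Prop :=
  DegTwo (fun e => z (Sum.inl e)) ∧ DegTwo (fun e => z (Sum.inr e))

/-- The inputs of the first graph. -/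
def ZZ (n : ℕ) : Finset (Var n) := univ.map ⟨Sum.inl, Sum.inl_injective⟩

theorem card_ZZ (n : ℕ) : (ZZ n).card = Fintype.card (Pr n) := by
  rw [ZZ, card_map, card_univ]

theorem sq_le_card (hn : 2 ≤ n) : n ^ 2 ≤ 4 * Fintype.card (Pr n) := by
  have h := card_Pr n
  obtain ⟨m, rfl⟩ : ∃ m, n = m + 2 := ⟨n - 2, by omega⟩
  have e : (m + 2) * (m + 2 - 1) = (m + 2) * (m + 1) := by
    congr 1
  rw [e] at h
  nlinarith

open Classical in
theorem hits_union {T : Type} [DecidableEq T] (𝒯 : Finset T) (A : (Pr n → Bool) → Prop)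
    (R : T → (Pr n → Bool) → Prop) (hA : ∀ z, A z ↔ ∃ t ∈ 𝒯, R t z) (r : ZMod 3) :
    hits n m r A ≤ ∑ t ∈ 𝒯, hits n m r (R t) := by
  unfold hits
  have h : (univ : Finset (Pos m → Fin n)).filter
      (fun f => Function.Injective f ∧ A (inp f (strt m r))) ⊆
      𝒯.biUnion (fun t => (univ : Finset (Pos m → Fin n)).filter
        (fun f => Function.Injective f ∧ R t (inp f (strt m r)))) := by
    intro f hf
    rw [mem_filter] at hf
    obtain ⟨t, ht, ht2⟩ := (hA _).1 hf.2.2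
    rw [mem_biUnion]
    exact ⟨t, ht, mem_filter.2 ⟨mem_univ _, hf.2.1, ht2⟩⟩
  exact (card_le_card h).trans card_biUnion_le

open Classical in
theorem hits_union_eq {T : Type} [DecidableEq T] (𝒯 : Finset T) (A : (Pr n → Bool) → Prop)
    (R : T → (Pr n → Bool) → Prop) (hA : ∀ z, A z ↔ ∃ t ∈ 𝒯, R t z)
    (hd : ∀ z, ∀ t ∈ 𝒯, ∀ t' ∈ 𝒯, R t z → R t' z → t = t') (r : ZMod 3) :
    hits n m r A = ∑ t ∈ 𝒯, hits n m r (R t) := by
  unfold hits
  have h : (univ : Finset (Pos m → Fin n)).filter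
      (fun f => Function.Injective f ∧ A (inp f (strt m r))) =
      𝒯.biUnion (fun t => (univ : Finset (Pos m → Fin n)).filter
        (fun f => Function.Injective f ∧ R t (inp f (strt m r)))) := by
    ext f
    simp only [mem_filter, mem_univ, true_and, mem_biUnion]
    constructor
    · rintro ⟨h1, h2⟩
      obtain ⟨t, ht, ht2⟩ := (hA _).1 h2
      exact ⟨t, ht, h1, ht2⟩
    · rintro ⟨t, ht, h1, h2⟩
      exact ⟨h1, (hA _).2 ⟨t, ht, h2⟩⟩
  rw [h, card_biUnion]
  intro t ht t' ht' hne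
  apply disjoint_left.2
  intro f hf hf'
  rw [mem_filter] at hf hf'
  exact hne (hd _ t ht t' ht' hf.2.2 hf'.2.2)

/-- The decomposition, restricted to the first graph. -/
theorem decomp_first (P : NBP (Var n) s) (hk : 1 ≤ k) (hP : P.ReadK k) (hn : 2 ≤ n)
    (hnk : 16 * k ≤ Fintype.card (Pr n)) (H : Pr n → Bool) :
    ∃ (𝒯 : Finset (Fin (4 * k * k) → Option (NBP.Seg (Var n) s)))
      (R : (Fin (4 * k * k) → Option (NBP.Seg (Var n) s)) → (Pr n → Bool) → Prop),
      𝒯.card ≤ (4 * (s * s) * (n * n)) ^ (4 * k * k) ∧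
      (∀ x, P.Accepts (Sum.elim x H) ↔ ∃ t ∈ 𝒯, R t x) ∧
      (P.Deterministic → ∀ x, ∀ t ∈ 𝒯, ∀ t' ∈ 𝒯, R t x → R t' x → t = t') ∧
      (∀ t ∈ 𝒯, ∃ X Y : Finset (Pr n), Disjoint X Y ∧
        n ^ 2 ≤ KK k * X.card ∧ n ^ 2 ≤ KK k * Y.card ∧ Mixing X Y (R t)) := by
  classical
  obtain ⟨𝒯, R, h1, h2, h3⟩ := P.decomp k hk hP (ZZ n) (by rw [card_ZZ]; exact hnk)
  refine ⟨𝒯, fun t x => R t (Sum.elim x H), ?_, fun x => h1 _, ?_, ?_⟩
  · have hs : 1 ≤ s := by
      have := P.src.2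
      omega
    refine (card_le_univ _).trans ?_
    rw [Fintype.card_fun, Fintype.card_fin, Fintype.card_option, Fintype.card_prod,
      Fintype.card_prod, Fintype.card_option, Fintype.card_prod, Fintype.card_bool,
      Fintype.card_fin, card_Var]
    apply Nat.pow_le_pow_left
    have h4 := card_Pr n
    have h5 : 2 * Fintype.card (Pr n) ≤ n * n - n := by
      rw [h4, Nat.mul_sub, mul_one]
    have h6 : 1 ≤ s * s := Nat.mul_pos hs hs
    have h7 : 4 ≤ n * n := by nlinarith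
    have h8 : 2 * Fintype.card (Pr n) * 2 + 1 ≤ 2 * (n * n) - 3 := by omega
    calc s * (s * (2 * Fintype.card (Pr n) * 2 + 1)) + 1
        ≤ s * (s * (2 * (n * n) - 3)) + s * s := by
          apply Nat.add_le_add _ h6
          apply Nat.mul_le_mul_left
          apply Nat.mul_le_mul_left
          exact h8
      _ = (s * s) * ((2 * (n * n) - 3) + 1) := by ring
      _ ≤ (s * s) * (4 * (n * n)) := by
          apply Nat.mul_le_mul_left
          omega
      _ = 4 * (s * s) * (n * n) := by ring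
  · intro hdet x t ht t' ht' hx hx'
    exact h2 _ (P.unamb_of_deterministic hdet _ _) t ht t' ht' hx hx'
  · intro t ht
    obtain ⟨X, Y, hX, hY, hXY, hXc, hYc, hmix⟩ := h3 t ht
    have hcard : ∀ A : Finset (Var n), A ⊆ ZZ n →
        (univ.filter (fun e : Pr n => Sum.inl e ∈ A)).card = A.card := by
      intro A hA
      apply card_bij (fun e _ => Sum.inl e)
      · intro e he
        exact (mem_filter.1 he).2
      · intro e _ e' _ h
        exact Sum.inl_injective h
      · intro v hv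
        obtain ⟨e, _, rfl⟩ := mem_map.1 (hA hv)
        exact ⟨e, mem_filter.2 ⟨mem_univ _, hv⟩, rfl⟩
    refine ⟨univ.filter (fun e => Sum.inl e ∈ X), univ.filter (fun e => Sum.inl e ∈ Y),
      ?_, ?_, ?_, ?_⟩
    · rw [disjoint_left]
      intro e he he'
      exact disjoint_left.1 hXY (mem_filter.1 he).2 (mem_filter.1 he').2
    · rw [hcard X hX]
      have h5 := sq_le_card hn
      rw [card_ZZ] at hXc
      unfold KK
      calc n ^ 2 ≤ 4 * Fintype.card (Pr n) := h5
        _ ≤ 4 * (8 * (4 * k * k + 1) ^ k * X.card) := Nat.mul_le_mul_left _ hXc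
        _ = _ := by ring
    · rw [hcard Y hY]
      have h5 := sq_le_card hn
      rw [card_ZZ] at hYc
      unfold KK
      calc n ^ 2 ≤ 4 * Fintype.card (Pr n) := h5
        _ ≤ 4 * (8 * (4 * k * k + 1) ^ k * Y.card) := Nat.mul_le_mul_left _ hYc
        _ = _ := by ring
    · intro x x' hx hx' hag
      have h6 := hmix _ _ hx hx' (by
        intro v hv hv'
        rcases v with e | e
        · apply hag e
          · intro h; exact hv (mem_filter.1 h).2
          · intro h; exact hv' (mem_filter.1 h).2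
        · rfl)
      convert h6 using 1
      funext v
      rcases v with e | e
      · simp
      · simp

/-- The parameters. -/
def gg (k n : ℕ) : ℕ := n / EE k

/-- The number of gadgets. -/
def mm (k n : ℕ) : ℕ := 8 * KK k ^ 16 * gg k n

theorem mm_le (k n : ℕ) : 57600 * (8 * KK k ^ 16) * mm k n ≤ n := by
  unfold mm gg
  have : 57600 * (8 * KK k ^ 16) * (8 * KK k ^ 16 * (n / EE k)) = EE k * (n / EE k) := by
    unfold EE; ring
  rw [this]
  exact Nat.mul_div_le _ _

/-- Each part of the decomposition is nearly balanced. -/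
theorem part_bound (hn : 0 < n) (R : (Pr n → Bool) → Prop) (X Y : Finset (Pr n))
    (hXY : Disjoint X Y) (hX : n ^ 2 ≤ KK k * X.card) (hY : n ^ 2 ≤ KK k * Y.card)
    (hR : Mixing X Y R) :
    |(hits n (mm k n) 0 R : ℝ) - hits n (mm k n) 1 R| ≤
      8 * (13 / 15) ^ gg k n * (n : ℝ) ^ (24 * mm k n) :=
  hits_diff X Y hXY hn (KK k) hX hY R hR (gg k n) rfl

/-- The comparison of the two ratios. -/
theorem ratio_bound (g : ℕ) (N : ℝ) (hN : 0 < N) (T d : ℝ) (hT : 0 ≤ T)
    (h : d * ((99 / 100) ^ g * N) ≤ T * (8 * (13 / 15) ^ g * N)) :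
    d ≤ 8 * T * (8 / 9) ^ g := by
  have h1 : d * (99 / 100) ^ g ≤ T * (8 * (13 / 15) ^ g) := by
    have h2 : (d * (99 / 100) ^ g) * N ≤ (T * (8 * (13 / 15) ^ g)) * N := by linarith
    exact le_of_mul_le_mul_right h2 hN
  have h3 : ((13 : ℝ) / 15) ^ g ≤ (8 / 9) ^ g * (99 / 100) ^ g := by
    rw [← mul_pow]
    apply pow_le_pow_left₀ (by positivity)
    norm_num
  have h4 : d * (99 / 100) ^ g ≤ (8 * T * (8 / 9) ^ g) * (99 / 100) ^ g := by
    calc d * (99 / 100) ^ g ≤ T * (8 * (13 / 15) ^ g) := h1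
      _ ≤ T * (8 * ((8 / 9) ^ g * (99 / 100) ^ g)) := by gcongr
      _ = _ := by ring
  exact le_of_mul_le_mul_right h4 (by positivity)

/-- The exponent of the lower bound. -/
def aa (k n : ℕ) : ℕ := n / (1000 * k) ^ (1000 * k)

theorem params (hk : 1 ≤ k) (ha : 1 ≤ aa k n) :
    2 ≤ n ∧ 16 * k ≤ Fintype.card (Pr n) ∧ 0 < mm k n ∧ 24 * mm k n ≤ n := by
  have h1 : (1000 * k) ^ (1000 * k) ≤ n := by
    have := Nat.div_mul_le_self n ((1000 * k) ^ (1000 * k))
    unfold aa at ha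
    calc (1000 * k) ^ (1000 * k) = 1 * (1000 * k) ^ (1000 * k) := (one_mul _).symm
      _ ≤ n / (1000 * k) ^ (1000 * k) * (1000 * k) ^ (1000 * k) := Nat.mul_le_mul_right _ ha
      _ ≤ n := this
  have h2 : 1000 * k ≤ (1000 * k) ^ (1000 * k) := Nat.le_self_pow (by omega) _
  have h3 : 1000 * k ≤ n := h2.trans h1
  have h4 := expo k n hk ha
  have h5 : 0 < gg k n := by
    unfold gg
    exact lt_of_lt_of_le (by positivity) h4
  have hK : 0 < KK k := by unfold KK; positivity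
  refine ⟨by omega, ?_, ?_, ?_⟩
  · have h6 := sq_le_card (n := n) (by omega)
    have h7 : 1000 * k * n ≤ n ^ 2 := by
      rw [sq]
      exact Nat.mul_le_mul_right _ h3
    nlinarith
  · unfold mm
    positivity
  · have h6 := mm_le k n
    have h7 : 24 * mm k n ≤ 57600 * (8 * KK k ^ 16) * mm k n := by
      apply Nat.mul_le_mul_right
      have : 1 ≤ KK k ^ 16 := Nat.one_le_pow _ _ hK
      omega
    omega

theorem exists_placement (h : 24 * m ≤ n) : ∃ f : Pos m → Fin n, Function.Injective f := by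
  have : Fintype.card (Pos m) ≤ Fintype.card (Fin n) := by
    rw [card_Pos, Fintype.card_fin]
    exact h
  obtain ⟨f⟩ := Function.Embedding.nonempty_of_card_le this
  exact ⟨f, f.injective⟩

theorem hits_zero_of (r : ZMod 3) (R : (Pr n → Bool) → Prop)
    (h : ∀ f : Pos m → Fin n, Function.Injective f → ¬ R (inp f (strt m r))) :
    hits n m r R = 0 := by
  classical
  unfold hits
  rw [card_eq_zero, filter_eq_empty_iff]
  rintro f _ ⟨h1, h2⟩
  exact h f h1 h2

/-- The core of the nondeterministic bounds. -/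
theorem core (P : NBP (Var n) s) (hk : 1 ≤ k) (hP : P.ReadK k) (H : Pr n → Bool)
    (a b : ZMod 3) (hab : (a = 0 ∧ b = 1) ∨ (a = 1 ∧ b = 0)) (ha : 1 ≤ aa k n)
    (h1 : ∀ f : Pos (mm k n) → Fin n, Function.Injective f →
      P.Accepts (Sum.elim (inp f (strt (mm k n) a)) H))
    (h2 : ∀ f : Pos (mm k n) → Fin n, Function.Injective f →
      ¬ P.Accepts (Sum.elim (inp f (strt (mm k n) b)) H)) : 2 ^ aa k n ≤ s := by
  classical
  by_contra hcon
  push Not at hcon
  obtain ⟨hn, hnk, hm, hmn⟩ := params hk ha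
  obtain ⟨𝒯, R, hT, hA, _, hR⟩ := decomp_first P hk hP hn hnk H
  have hn0 : 0 < n := by omega
  have hs : 1 ≤ s := by
    have := P.src.2
    omega
  have g1 := hits_all (n := n) (m := mm k n) a (fun x => P.Accepts (Sum.elim x H)) h1
    (8 * KK k ^ 16) (gg k n) rfl (mm_le k n) hn0
  have g2 := hits_union (n := n) (m := mm k n) 𝒯 (fun x => P.Accepts (Sum.elim x H)) R hA a
  have g3 : ∀ t ∈ 𝒯, (hits n (mm k n) a (R t) : ℝ) ≤
      8 * (13 / 15) ^ gg k n * (n : ℝ) ^ (24 * mm k n) := by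
    intro t ht
    obtain ⟨X, Y, hXY, hX, hY, hmix⟩ := hR t ht
    have g4 := part_bound hn0 (R t) X Y hXY hX hY hmix
    have g5 : hits n (mm k n) b (R t) = 0 := by
      apply hits_zero_of
      intro f hf hRf
      exact h2 f hf ((hA _).2 ⟨t, ht, hRf⟩)
    rw [abs_le] at g4
    rcases hab with ⟨rfl, rfl⟩ | ⟨rfl, rfl⟩
    · rw [g5] at g4
      push_cast at g4
      linarith [g4.2]
    · rw [g5] at g4
      push_cast at g4
      linarith [g4.1]
  have g6 : (hits n (mm k n) a (fun x => P.Accepts (Sum.elim x H)) : ℝ) ≤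
      𝒯.card * (8 * (13 / 15) ^ gg k n * (n : ℝ) ^ (24 * mm k n)) := by
    calc (hits n (mm k n) a (fun x => P.Accepts (Sum.elim x H)) : ℝ)
        ≤ ∑ t ∈ 𝒯, (hits n (mm k n) a (R t) : ℝ) := by exact_mod_cast g2
      _ ≤ ∑ t ∈ 𝒯, 8 * (13 / 15) ^ gg k n * (n : ℝ) ^ (24 * mm k n) := sum_le_sum g3
      _ = _ := by rw [sum_const, nsmul_eq_mul]
  have hN : (0 : ℝ) < (n : ℝ) ^ (24 * mm k n) := by
    have : (0 : ℝ) < n := by exact_mod_cast hn0
    positivity
  have g7 := ratio_bound (gg k n) ((n : ℝ) ^ (24 * mm k n)) hN 𝒯.card 1 (by positivity)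
    (by rw [one_mul]; exact g1.trans g6)
  have g8 := final_ineq k n s 𝒯.card hk ha hcon.le hT
  have g9 : (1 : ℝ) ≤ 1 / 2 ^ (n / (1000 * k) ^ (1000 * k)) := g7.trans g8
  rw [le_div_iff₀ (by positivity), one_mul] at g9
  have g10 : (2 : ℝ) ≤ 2 ^ (n / (1000 * k) ^ (1000 * k)) := by
    calc (2 : ℝ) = 2 ^ 1 := by norm_num
      _ ≤ _ := pow_le_pow_right₀ (by norm_num) ha
  linarith

theorem isIso_elim (f g : Pos m → Fin n) (hf : Function.Injective f) (hg : Function.Injective g)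
    (r : ZMod 3) : IsIso (Sum.elim (inp f (strt m r)) (inp g (strt m r))) :=
  iso_inp f g hf hg _

theorem not_isIso_elim (hm : 0 < m) (f g : Pos m → Fin n) (hf : Function.Injective f)
    (hg : Function.Injective g) :
    ¬ IsIso (Sum.elim (inp f (strt m 1)) (inp g (strt m 0))) :=
  not_iso hm f g hf hg

theorem degTwoPair_elim (f g : Pos m → Fin n) (hf : Function.Injective f)
    (hg : Function.Injective g) (r r' : ZMod 3) :
    DegTwoPair (Sum.elim (inp f (strt m r)) (inp g (strt m r'))) :=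
  ⟨degTwo_inp f hf r, degTwo_inp g hg r'⟩

/-- The bound for isomorphism. -/
theorem iso_bound (P : NBP (Var n) s) (hk : 1 ≤ k) (hP : P.ReadK k)
    (h : ∀ z, DegTwoPair z → (P.Accepts z ↔ IsIso z)) : 2 ^ aa k n ≤ s := by
  rcases Nat.eq_zero_or_pos (aa k n) with ha | ha
  · rw [ha]
    have := P.src.2
    omega
  obtain ⟨hn, hnk, hm, hmn⟩ := params hk ha
  obtain ⟨g, hg⟩ := exists_placement hmn
  apply core P hk hP (inp g (strt (mm k n) 0)) 0 1 (Or.inl ⟨rfl, rfl⟩) ha
  · intro f hf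
    exact (h _ (degTwoPair_elim f g hf hg 0 0)).2 (isIso_elim f g hf hg 0)
  · intro f hf hacc
    exact not_isIso_elim hm f g hf hg ((h _ (degTwoPair_elim f g hf hg 1 0)).1 hacc)

/-- The bound for non-isomorphism. -/
theorem noniso_bound (P : NBP (Var n) s) (hk : 1 ≤ k) (hP : P.ReadK k)
    (h : ∀ z, DegTwoPair z → (P.Accepts z ↔ ¬ IsIso z)) : 2 ^ aa k n ≤ s := by
  rcases Nat.eq_zero_or_pos (aa k n) with ha | ha
  · rw [ha]
    have := P.src.2
    omega
  obtain ⟨hn, hnk, hm, hmn⟩ := params hk ha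
  obtain ⟨g, hg⟩ := exists_placement hmn
  apply core P hk hP (inp g (strt (mm k n) 0)) 1 0 (Or.inr ⟨rfl, rfl⟩) ha
  · intro f hf
    exact (h _ (degTwoPair_elim f g hf hg 1 0)).2 (not_isIso_elim hm f g hf hg)
  · intro f hf hacc
    exact (h _ (degTwoPair_elim f g hf hg 0 0)).1 hacc (isIso_elim f g hf hg 0)

open Classical in
/-- The acceptance probability of a randomised program: the program `P j` is used with
probability `μ j`. -/
noncomputable def accProb {V : Type} {ι : Type} [Fintype ι] (μ : ι → ℝ) (P : ι → NBP V s)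
    (z : V → Bool) : ℝ := ∑ j, if (P j).Accepts z then μ j else 0

theorem det_diff (P : NBP (Var n) s) (hk : 1 ≤ k) (hP : P.ReadK k) (hd : P.Deterministic)
    (H : Pr n → Bool) (ha : 1 ≤ aa k n) :
    |(hits n (mm k n) 0 (fun x => P.Accepts (Sum.elim x H)) : ℝ) -
      hits n (mm k n) 1 (fun x => P.Accepts (Sum.elim x H))| ≤
      ((4 * (s * s) * (n * n)) ^ (4 * k * k) : ℕ) *
        (8 * (13 / 15) ^ gg k n * (n : ℝ) ^ (24 * mm k n)) := by
  classical
  obtain ⟨hn, hnk, hm, hmn⟩ := params hk ha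
  obtain ⟨𝒯, R, hT, hA, hdis, hR⟩ := decomp_first P hk hP hn hnk H
  have hn0 : 0 < n := by omega
  rw [hits_union_eq 𝒯 _ R hA (hdis hd) 0, hits_union_eq 𝒯 _ R hA (hdis hd) 1]
  push_cast
  rw [← sum_sub_distrib]
  refine (abs_sum_le_sum_abs _ _).trans ?_
  calc ∑ t ∈ 𝒯, |(hits n (mm k n) 0 (R t) : ℝ) - hits n (mm k n) 1 (R t)|
      ≤ ∑ t ∈ 𝒯, 8 * (13 / 15) ^ gg k n * (n : ℝ) ^ (24 * mm k n) := by
        apply sum_le_sum
        intro t ht
        obtain ⟨X, Y, hXY, hX, hY, hmix⟩ := hR t ht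
        exact part_bound hn0 (R t) X Y hXY hX hY hmix
    _ = 𝒯.card * (8 * (13 / 15) ^ gg k n * (n : ℝ) ^ (24 * mm k n)) := by
        rw [sum_const, nsmul_eq_mul]
    _ ≤ _ := by
        apply mul_le_mul_of_nonneg_right _ (by positivity)
        exact_mod_cast hT

open Classical in
theorem sum_accProb {ι : Type} [Fintype ι] (μ : ι → ℝ) (P : ι → NBP (Var n) s)
    (H : Pr n → Bool) (r : ZMod 3) :
    ∑ f ∈ (univ : Finset (Pos m → Fin n)).filter (fun f => Function.Injective f),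
      accProb μ P (Sum.elim (inp f (strt m r)) H) =
      ∑ j, μ j * hits n m r (fun x => (P j).Accepts (Sum.elim x H)) := by
  unfold accProb
  rw [sum_comm]
  apply sum_congr rfl
  intro j _
  unfold hits
  rw [← sum_filter, sum_const, nsmul_eq_mul, filter_filter, mul_comm]

/-- The core of the randomised bounds. -/
theorem core_rand {ι : Type} [Fintype ι] (μ : ι → ℝ) (P : ι → NBP (Var n) s) (hk : 1 ≤ k)
    (hμ : ∀ j, 0 ≤ μ j) (hμ1 : ∑ j, μ j = 1) (hP : ∀ j, (P j).ReadK k)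
    (hd : ∀ j, (P j).Deterministic) (H : Pr n → Bool)
    (a b : ZMod 3) (hab : (a = 0 ∧ b = 1) ∨ (a = 1 ∧ b = 0)) (ha : 1 ≤ aa k n)
    (hs : s ≤ 2 ^ aa k n) (α β : ℝ)
    (h1 : ∀ f : Pos (mm k n) → Fin n, Function.Injective f →
      α ≤ accProb μ P (Sum.elim (inp f (strt (mm k n) a)) H))
    (h2 : ∀ f : Pos (mm k n) → Fin n, Function.Injective f →
      accProb μ P (Sum.elim (inp f (strt (mm k n) b)) H) ≤ β) :
    α - β ≤ 1 / 2 ^ aa k n := by
  classical
  rcases le_or_gt (α - β) 0 with h0 | h0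
  · exact h0.trans (by positivity)
  obtain ⟨hn, hnk, hm, hmn⟩ := params hk ha
  have hn0 : 0 < n := by omega
  have hs1 : 1 ≤ s := by
    by_contra hcon
    have hι : IsEmpty ι := ⟨fun j => by have := (P j).src.2; omega⟩
    rw [univ_eq_empty, sum_empty] at hμ1
    exact absurd hμ1 (by norm_num)
  set I := (univ : Finset (Pos (mm k n) → Fin n)).filter (fun f => Function.Injective f) with hI
  have hIc : (99 / 100 : ℝ) ^ gg k n * (n : ℝ) ^ (24 * mm k n) ≤ I.card := by
    have := hits_all (n := n) (m := mm k n) 0 (fun _ => True) (fun _ _ => trivial)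
      (8 * KK k ^ 16) (gg k n) rfl (mm_le k n) hn0
    refine this.trans (le_of_eq ?_)
    unfold hits
    simp only [and_true]
    rw [hI]
  have e1 : α * I.card ≤ ∑ f ∈ I, accProb μ P (Sum.elim (inp f (strt (mm k n) a)) H) := by
    have : ∑ f ∈ I, α ≤ ∑ f ∈ I, accProb μ P (Sum.elim (inp f (strt (mm k n) a)) H) :=
      sum_le_sum (fun f hf => h1 f (mem_filter.1 hf).2)
    rw [sum_const, nsmul_eq_mul] at this
    linarith
  have e2 : ∑ f ∈ I, accProb μ P (Sum.elim (inp f (strt (mm k n) b)) H) ≤ β * I.card := by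
    have : ∑ f ∈ I, accProb μ P (Sum.elim (inp f (strt (mm k n) b)) H) ≤ ∑ f ∈ I, β :=
      sum_le_sum (fun f hf => h2 f (mem_filter.1 hf).2)
    rw [sum_const, nsmul_eq_mul] at this
    linarith
  rw [hI, sum_accProb] at e1 e2
  rw [← hI] at e1 e2
  set Δ : ℝ := ((4 * (s * s) * (n * n)) ^ (4 * k * k) : ℕ) *
        (8 * (13 / 15) ^ gg k n * (n : ℝ) ^ (24 * mm k n)) with hΔ
  have e3 : ∑ j, μ j * (hits n (mm k n) a (fun x => (P j).Accepts (Sum.elim x H)) : ℝ) ≤
      ∑ j, μ j * ((hits n (mm k n) b (fun x => (P j).Accepts (Sum.elim x H)) : ℝ) + Δ) := by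
    apply sum_le_sum
    intro j _
    apply mul_le_mul_of_nonneg_left _ (hμ j)
    have g4 := det_diff (P j) hk (hP j) (hd j) H ha
    rw [abs_le] at g4
    rcases hab with ⟨rfl, rfl⟩ | ⟨rfl, rfl⟩
    · linarith [g4.2]
    · linarith [g4.1]
  have e4 : ∑ j, μ j * ((hits n (mm k n) b (fun x => (P j).Accepts (Sum.elim x H)) : ℝ) + Δ) =
      ∑ j, μ j * (hits n (mm k n) b (fun x => (P j).Accepts (Sum.elim x H)) : ℝ) + Δ := by
    simp only [mul_add]
    rw [sum_add_distrib, ← sum_mul, hμ1, one_mul]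
  have e5 : (α - β) * I.card ≤ Δ := by
    rw [sub_mul]
    linarith
  have hN : (0 : ℝ) < (n : ℝ) ^ (24 * mm k n) := by
    have : (0 : ℝ) < n := by exact_mod_cast hn0
    positivity
  have g7 := ratio_bound (gg k n) ((n : ℝ) ^ (24 * mm k n)) hN
    (((4 * (s * s) * (n * n)) ^ (4 * k * k) : ℕ) : ℝ) (α - β) (by positivity)
    ((mul_le_mul_of_nonneg_left hIc h0.le).trans e5)
  exact g7.trans (final_ineq k n s _ hk ha hs le_rfl)

theorem accProb_le_one {V ι : Type} [Fintype ι] (μ : ι → ℝ) (P : ι → NBP V s)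
    (hμ : ∀ j, 0 ≤ μ j) (hμ1 : ∑ j, μ j = 1) (z : V → Bool) :
    0 ≤ accProb μ P z ∧ accProb μ P z ≤ 1 := by
  classical
  unfold accProb
  constructor
  · apply sum_nonneg
    intro j _
    split_ifs
    · exact hμ j
    · exact le_rfl
  · rw [← hμ1]
    apply sum_le_sum
    intro j _
    split_ifs
    · exact le_rfl
    · exact hμ j

end Pool.Agent.V7H65.RK
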