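import Mathlib
import Pool.Agent.H526R2.GI.Dnnf
import Pool.Agent.V7H65.RK.Main

/-! DNNF circuits are unions of few mixing sets. -/

namespace Pool.Agent.V7H65.RK

open Finset Pool.Agent.H526R2.GI

section fm

variable {V : Type} [DecidableEq V]

/-- Decomposable formulas. -/
def FDec : Formula V → Prop
  | .lit _ _ => True
  | .const _ => True
  | .and f g => Disjoint f.vars g.vars ∧ FDec f ∧ FDec g
  | .or f g => FDec f ∧ FDec g

/-- The subformula `h` occurs in `f` and all conjunctive siblings on the way are true. -/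
inductive FCtx (z : V → Bool) : Formula V → Formula V → Prop
  | refl (f) : FCtx z f f
  | andl (f g h) : FCtx z f h → g.eval z = true → FCtx z (.and f g) h
  | andr (f g h) : FCtx z g h → f.eval z = true → FCtx z (.and f g) h
  | orl (f g h) : FCtx z f h → FCtx z (.or f g) h
  | orr (f g h) : FCtx z g h → FCtx z (.or f g) h

theorem eval_congr {z z' : V → Bool} (f : Formula V) (h : ∀ v ∈ f.vars, z' v = z v) :
    f.eval z' = f.eval z := by
  induction f with
  | lit v b =>
    simp only [Formula.eval]
    rw [h v (by simp [Formula.vars])]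
  | const b => rfl
  | and f g ihf ihg =>
    simp only [Formula.eval, Formula.vars] at *
    rw [ihf (fun v hv => h v (mem_union_left _ hv)), ihg (fun v hv => h v (mem_union_right _ hv))]
  | or f g ihf ihg =>
    simp only [Formula.eval, Formula.vars] at *
    rw [ihf (fun v hv => h v (mem_union_left _ hv)), ihg (fun v hv => h v (mem_union_right _ hv))]

theorem FCtx.vars_subset {z : V → Bool} {f h : Formula V} (c : FCtx z f h) :
    h.vars ⊆ f.vars := by
  induction c with
  | refl f => exact subset_rfl
  | andl f g h _ _ ih => exact ih.trans subset_union_left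
  | andr f g h _ _ ih => exact ih.trans subset_union_right
  | orl f g h _ ih => exact ih.trans subset_union_left
  | orr f g h _ ih => exact ih.trans subset_union_right

omit [DecidableEq V] in
theorem FCtx.eval {z : V → Bool} {f h : Formula V} (c : FCtx z f h) (hh : h.eval z = true) :
    f.eval z = true := by
  induction c with
  | refl f => exact hh
  | andl f g h _ hg ih =>
    simp only [Formula.eval, Bool.and_eq_true]
    exact ⟨ih hh, hg⟩
  | andr f g h _ hg ih =>
    simp only [Formula.eval, Bool.and_eq_true]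
    exact ⟨hg, ih hh⟩
  | orl f g h _ ih =>
    simp only [Formula.eval, Bool.or_eq_true]
    exact Or.inl (ih hh)
  | orr f g h _ ih =>
    simp only [Formula.eval, Bool.or_eq_true]
    exact Or.inr (ih hh)

/-- The context does not depend on the variables of the subformula. -/
theorem FCtx.congr {z z' : V → Bool} {f h : Formula V} (c : FCtx z f h) (hd : FDec f)
    (hz : ∀ v, v ∉ h.vars → z' v = z v) : FCtx z' f h := by
  induction c with
  | refl f => exact FCtx.refl f
  | andl f g h c hg ih =>
    simp only [FDec] at hd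
    refine FCtx.andl f g h (ih hd.2.1 hz) ?_
    rw [eval_congr g (fun v hv => hz v ?_)]
    · exact hg
    · exact fun h' => disjoint_left.1 hd.1 (c.vars_subset h') hv
  | andr f g h c hg ih =>
    simp only [FDec] at hd
    refine FCtx.andr f g h (ih hd.2.2 hz) ?_
    rw [eval_congr f (fun v hv => hz v ?_)]
    · exact hg
    · exact fun h' => disjoint_left.1 hd.1 hv (c.vars_subset h')
  | orl f g h _ ih => exact FCtx.orl f g h (ih hd.1 hz)
  | orr f g h _ ih => exact FCtx.orr f g h (ih hd.2 hz)

/-- Finding a balanced subformula or a big jump. -/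
theorem exists_cut {z : V → Bool} (Z : Finset V) (hN : 2 ≤ Z.card) (f : Formula V) (hd : FDec f)
    (hf : f.eval z = true) (hv : 2 * Z.card < 3 * (Z ∩ f.vars).card) :
    (∃ h, FCtx z f h ∧ h.eval z = true ∧ Z.card ≤ 3 * (Z ∩ h.vars).card ∧
      3 * (Z ∩ h.vars).card ≤ 2 * Z.card) ∨
    (∃ p c, FCtx z f p ∧ c.eval z = true ∧ (∃ d, p = .or c d ∨ p = .or d c) ∧
      2 * Z.card < 3 * (Z ∩ p.vars).card ∧ 3 * (Z ∩ c.vars).card < Z.card) := by
  induction f with
  | lit v b =>
    exfalso
    have h1 : (Z ∩ (Formula.lit v b).vars).card ≤ 1 := by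
      refine (card_le_card inter_subset_right).trans ?_
      simp [Formula.vars]
    omega
  | const b =>
    exfalso
    simp only [Formula.vars, inter_empty, card_empty] at hv
    omega
  | and f g ihf ihg =>
    simp only [FDec] at hd
    simp only [Formula.eval, Bool.and_eq_true] at hf
    simp only [Formula.vars] at hv
    rw [inter_union_distrib_left, card_union_of_disjoint] at hv
    swap
    · exact (hd.1.mono inter_subset_right inter_subset_right)
    by_cases h1 : Z.card ≤ 3 * (Z ∩ f.vars).card
    · by_cases h2 : 3 * (Z ∩ f.vars).card ≤ 2 * Z.card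
      · left
        exact ⟨f, FCtx.andl _ _ _ (FCtx.refl f) hf.2, hf.1, h1, h2⟩
      · rcases ihf hd.2.1 hf.1 (by omega) with ⟨h, c, h3, h4, h5⟩ | ⟨p, c, h3, h4, h5, h6, h7⟩
        · left
          exact ⟨h, FCtx.andl _ _ _ c hf.2, h3, h4, h5⟩
        · right
          exact ⟨p, c, FCtx.andl _ _ _ h3 hf.2, h4, h5, h6, h7⟩
    · by_cases h2 : 3 * (Z ∩ g.vars).card ≤ 2 * Z.card
      · left
        exact ⟨g, FCtx.andr _ _ _ (FCtx.refl g) hf.1, hf.2, by omega, h2⟩
      · rcases ihg hd.2.2 hf.2 (by omega) with ⟨h, c, h3, h4, h5⟩ | ⟨p, c, h3, h4, h5, h6, h7⟩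
        · left
          exact ⟨h, FCtx.andr _ _ _ c hf.1, h3, h4, h5⟩
        · right
          exact ⟨p, c, FCtx.andr _ _ _ h3 hf.1, h4, h5, h6, h7⟩
  | or f g ihf ihg =>
    simp only [FDec] at hd
    simp only [Formula.eval, Bool.or_eq_true] at hf
    rcases hf with hf | hf
    · by_cases h2 : 3 * (Z ∩ f.vars).card ≤ 2 * Z.card
      · by_cases h1 : Z.card ≤ 3 * (Z ∩ f.vars).card
        · left
          exact ⟨f, FCtx.orl _ _ _ (FCtx.refl f), hf, h1, h2⟩
        · right
          exact ⟨.or f g, f, FCtx.refl _, hf, ⟨g, Or.inl rfl⟩, hv, by omega⟩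
      · rcases ihf hd.1 hf (by omega) with ⟨h, c, h3, h4, h5⟩ | ⟨p, c, h3, h4, h5, h6, h7⟩
        · left
          exact ⟨h, FCtx.orl _ _ _ c, h3, h4, h5⟩
        · right
          exact ⟨p, c, FCtx.orl _ _ _ h3, h4, h5, h6, h7⟩
    · by_cases h2 : 3 * (Z ∩ g.vars).card ≤ 2 * Z.card
      · by_cases h1 : Z.card ≤ 3 * (Z ∩ g.vars).card
        · left
          exact ⟨g, FCtx.orr _ _ _ (FCtx.refl g), hf, h1, h2⟩
        · right
          exact ⟨.or f g, g, FCtx.refl _, hf, ⟨f, Or.inr rfl⟩, hv, by omega⟩
      · rcases ihg hd.2 hf (by omega) with ⟨h, c, h3, h4, h5⟩ | ⟨p, c, h3, h4, h5, h6, h7⟩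
        · left
          exact ⟨h, FCtx.orr _ _ _ c, h3, h4, h5⟩
        · right
          exact ⟨p, c, FCtx.orr _ _ _ h3, h4, h5, h6, h7⟩

/-- Two sides inside a set whose complement is irrelevant. -/
theorem mix_of_free {Z F : Finset V} (hF : F ⊆ Z) (R : (V → Bool) → Prop)
    (hfree : ∀ z z' : V → Bool, (∀ v, v ∉ F → z' v = z v) → R z → R z')
    (hZ : 6 ≤ Z.card) (hFc : Z.card ≤ 3 * F.card) :
    ∃ X Y : Finset V, X ⊆ Z ∧ Y ⊆ Z ∧ Disjoint X Y ∧ Z.card ≤ 40 * X.card ∧
      Z.card ≤ 40 * Y.card ∧ NBP.MixV X Y R := by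
  obtain ⟨X, hX, hXc⟩ := exists_subset_card_eq (s := F) (n := F.card / 2) (by omega)
  have hXZ : X ⊆ Z := hX.trans hF
  refine ⟨X, Z \ X, hXZ, sdiff_subset, disjoint_sdiff, ?_, ?_, ?_⟩
  · omega
  · rw [card_sdiff_of_subset hXZ]
    have := card_le_card hF
    omega
  · intro z z' _ hz' _
    apply hfree z' _ _ hz'
    intro v hv
    rw [if_neg (fun h => hv (hX h))]

end fm

section circ

variable {n s : ℕ}

theorem dec_unfold' {V : Type} [DecidableEq V] {C : Circuit V s} (hC : C.Decomposable)
    (i : Fin s) : FDec (C.unfold i) := by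
  induction i using WellFoundedLT.induction with
  | _ i ih =>
    rw [Circuit.unfold]
    split
    · trivial
    · trivial
    · rename_i j k hjk
      exact ⟨hC i j k hjk, ih j (C.and_lt i j k hjk).1, ih k (C.and_lt i j k hjk).2⟩
    · rename_i j k hjk
      exact ⟨ih j (C.or_lt i j k hjk).1, ih k (C.or_lt i j k hjk).2⟩

theorem ctx_unfold' {V : Type} [DecidableEq V] {C : Circuit V s} {z : V → Bool}
    {f h : Formula V} (c : FCtx z f h) : ∀ i, f = C.unfold i → ∃ j, h = C.unfold j := by
  induction c with
  | refl f => exact fun i hi => ⟨i, hi⟩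
  | andl f g h _ _ ih =>
    intro i hi
    rw [Circuit.unfold] at hi
    split at hi
    · cases hi
    · cases hi
    · rename_i j k hjk
      injection hi with h1 h2
      exact ih j h1
    · cases hi
  | andr f g h _ _ ih =>
    intro i hi
    rw [Circuit.unfold] at hi
    split at hi
    · cases hi
    · cases hi
    · rename_i j k hjk
      injection hi with h1 h2
      exact ih k h2
    · cases hi
  | orl f g h _ ih =>
    intro i hi
    rw [Circuit.unfold] at hi
    split at hi
    · cases hi
    · cases hi
    · cases hi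
    · rename_i j k hjk
      injection hi with h1 h2
      exact ih j h1
  | orr f g h _ ih =>
    intro i hi
    rw [Circuit.unfold] at hi
    split at hi
    · cases hi
    · cases hi
    · cases hi
    · rename_i j k hjk
      injection hi with h1 h2
      exact ih k h2

theorem or_unfold' {V : Type} {C : Circuit V s} {i : Fin s} {f g : Formula V}
    (h : C.unfold i = .or f g) : (∃ j, f = C.unfold j) ∧ ∃ k, g = C.unfold k := by
  rw [Circuit.unfold] at h
  split at h
  · cases h
  · cases h
  · cases h
  · rename_i j k hjk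
    injection h with h1 h2
    exact ⟨⟨j, h1.symm⟩, ⟨k, h2.symm⟩⟩

/-- The decomposition of a DNNF circuit. -/
theorem dnnf_decomp {V : Type} [DecidableEq V] [Fintype V] (C : Circuit V s)
    (hC : C.Decomposable) (Z : Finset V) (hZ : 6 ≤ Z.card) :
    ∃ (𝒯 : Finset (Option (Fin s × Option (Fin s))))
      (R : Option (Fin s × Option (Fin s)) → (V → Bool) → Prop),
      (∀ z, C.eval z = true ↔ ∃ t ∈ 𝒯, R t z) ∧
      (∀ t ∈ 𝒯, ∃ X Y : Finset V, X ⊆ Z ∧ Y ⊆ Z ∧ Disjoint X Y ∧
        Z.card ≤ 40 * X.card ∧ Z.card ≤ 40 * Y.card ∧ NBP.MixV X Y (R t)) := by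
  classical
  set F := C.unfold C.out with hF
  have hd : FDec F := dec_unfold' hC _
  have hvs : ∀ {z : V → Bool} {h : Formula V}, FCtx z F h → h.vars ⊆ F.vars :=
    fun c => c.vars_subset
  by_cases hroot : 3 * (Z ∩ F.vars).card ≤ 2 * Z.card
  · -- few variables occur at all
    refine ⟨{none}, fun _ z => C.eval z = true, by simp, ?_⟩
    intro t _
    apply mix_of_free (F := Z \ F.vars) sdiff_subset _ _ hZ
    · have h1 : (Z \ F.vars).card + (Z ∩ F.vars).card = Z.card := card_sdiff_add_card_inter _ _
      omega
    · intro z z' h hz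
      have hz2 : F.eval z = true := hz
      show F.eval z' = true
      rw [eval_congr _ (fun v hv => h v ?_)]
      · exact hz2
      · intro hv2
        exact (mem_sdiff.1 hv2).2 hv
  · let R : Option (Fin s × Option (Fin s)) → (V → Bool) → Prop := fun t z =>
      match t with
      | none => False
      | some (j, none) => FCtx z F (C.unfold j) ∧ (C.unfold j).eval z = true
      | some (p, some c) => FCtx z F (C.unfold p) ∧ (C.unfold c).eval z = true
    let ok : Option (Fin s × Option (Fin s)) → Prop := fun t =>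
      match t with
      | none => False
      | some (j, none) => Z.card ≤ 3 * (Z ∩ (C.unfold j).vars).card ∧
          3 * (Z ∩ (C.unfold j).vars).card ≤ 2 * Z.card
      | some (p, some c) => (∃ d, C.unfold p = .or (C.unfold c) d ∨
          C.unfold p = .or d (C.unfold c)) ∧
          2 * Z.card < 3 * (Z ∩ (C.unfold p).vars).card ∧
          3 * (Z ∩ (C.unfold c).vars).card < Z.card
    refine ⟨univ.filter ok, R, ?_, ?_⟩
    · intro z
      constructor
      · intro hz
        rcases exists_cut Z (by omega) F hd hz (by omega) with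
          ⟨h, c, h3, h4, h5⟩ | ⟨p, c, h3, h4, h5, h6, h7⟩
        · obtain ⟨j, rfl⟩ := ctx_unfold' c C.out rfl
          exact ⟨some (j, none), mem_filter.2 ⟨mem_univ _, h4, h5⟩, c, h3⟩
        · obtain ⟨i, rfl⟩ := ctx_unfold' h3 C.out rfl
          obtain ⟨d, hd | hd⟩ := h5
          · obtain ⟨⟨j, rfl⟩, _⟩ := or_unfold' hd
            exact ⟨some (i, some j), mem_filter.2 ⟨mem_univ _, ⟨d, Or.inl hd⟩, h6, h7⟩, h3, h4⟩
          · obtain ⟨_, ⟨j, rfl⟩⟩ := or_unfold' hd
            exact ⟨some (i, some j), mem_filter.2 ⟨mem_univ _, ⟨d, Or.inr hd⟩, h6, h7⟩, h3, h4⟩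
      · rintro ⟨t, ht, hz⟩
        have hok := (mem_filter.1 ht).2
        rcases t with _ | ⟨j, _ | c⟩
        · exact hz.elim
        · exact hz.1.eval hz.2
        · apply hz.1.eval
          obtain ⟨⟨d, hd | hd⟩, _⟩ := hok
          · rw [hd]
            simp only [Formula.eval, Bool.or_eq_true]
            exact Or.inl hz.2
          · rw [hd]
            simp only [Formula.eval, Bool.or_eq_true]
            exact Or.inr hz.2
    · intro t ht
      have hok := (mem_filter.1 ht).2
      rcases t with _ | ⟨p, _ | c⟩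
      · exact hok.elim
      · obtain ⟨h4, h5⟩ := hok
        set j := p with hj
        refine ⟨Z ∩ (C.unfold j).vars, Z \ (C.unfold j).vars, inter_subset_left, sdiff_subset,
          ?_, by omega, ?_, ?_⟩
        · rw [disjoint_left]
          intro v hv hv'
          exact (mem_sdiff.1 hv').2 (mem_inter.1 hv).2
        · have h1 : (Z \ (C.unfold j).vars).card + (Z ∩ (C.unfold j).vars).card = Z.card :=
            card_sdiff_add_card_inter _ _
          omega
        · intro z z' hz hz' hag
          refine ⟨hz'.1.congr hd ?_, ?_⟩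
          · intro v hv
            rw [if_neg (fun h => hv (mem_inter.1 h).2)]
          · rw [eval_congr _ (fun v hv => ?_)]
            · exact hz.2
            · by_cases hvZ : v ∈ Z
              · rw [if_pos (mem_inter.2 ⟨hvZ, hv⟩)]
              · rw [if_neg (fun h => hvZ (mem_inter.1 h).1)]
                symm
                apply hag v
                · exact fun h => hvZ (mem_inter.1 h).1
                · exact fun h => hvZ (mem_sdiff.1 h).1
      · obtain ⟨h4, h5, h6⟩ := hok
        have hcard : ((Z ∩ (C.unfold p).vars) \ (C.unfold c).vars).card +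
            (Z ∩ (C.unfold c).vars).card ≥ (Z ∩ (C.unfold p).vars).card := by
          have h7 := card_sdiff_add_card_inter (Z ∩ (C.unfold p).vars) (C.unfold c).vars
          have h8 : ((Z ∩ (C.unfold p).vars) ∩ (C.unfold c).vars).card ≤
              (Z ∩ (C.unfold c).vars).card := by
            apply card_le_card
            intro v hv
            rw [mem_inter, mem_inter] at hv
            exact mem_inter.2 ⟨hv.1.1, hv.2⟩
          omega
        apply mix_of_free (F := (Z ∩ (C.unfold p).vars) \ (C.unfold c).vars)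
          (sdiff_subset.trans inter_subset_left) _ _ hZ (by omega)
        intro z z' h hz
        refine ⟨hz.1.congr hd ?_, ?_⟩
        · intro v hv
          apply h
          intro hv2
          exact hv (mem_inter.1 (mem_sdiff.1 hv2).1).2
        · rw [eval_congr _ (fun v hv => h v ?_)]
          · exact hz.2
          · intro hv2
            exact (mem_sdiff.1 hv2).2 hv

end circ

end Pool.Agent.V7H65.RK
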