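import Mathlib
import Pool.Agent.V7H65.RK.DN

/-! DNNF circuits and graph isomorphism on graphs of maximum degree two. -/

namespace Pool.Agent.V7H65.RK

open Finset Pool.Agent.H526R2.GI

variable {n m s k : ℕ}

/-- The core of the bounds for unions of mixing sets. -/
theorem core_family {T : Type} (𝒯 : Finset T) (R : T → (Pr n → Bool) → Prop)
    (A : (Pr n → Bool) → Prop) (hk : 1 ≤ k) (hs : s < 2 ^ aa k n)
    (hT : 𝒯.card ≤ (4 * (s * s) * (n * n)) ^ (4 * k * k))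
    (hA : ∀ x, A x ↔ ∃ t ∈ 𝒯, R t x)
    (hR : ∀ t ∈ 𝒯, ∃ X Y : Finset (Pr n), Disjoint X Y ∧
        n ^ 2 ≤ KK k * X.card ∧ n ^ 2 ≤ KK k * Y.card ∧ Mixing X Y (R t))
    (a b : ZMod 3) (hab : (a = 0 ∧ b = 1) ∨ (a = 1 ∧ b = 0)) (ha : 1 ≤ aa k n)
    (h1 : ∀ f : Pos (mm k n) → Fin n, Function.Injective f → A (inp f (strt (mm k n) a)))
    (h2 : ∀ f : Pos (mm k n) → Fin n, Function.Injective f →
      ¬ A (inp f (strt (mm k n) b))) : False := by
  classical
  obtain ⟨hn, hnk, hm, hmn⟩ := params hk ha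
  have hn0 : 0 < n := by omega
  have g1 := hits_all (n := n) (m := mm k n) a A h1
    (8 * KK k ^ 16) (gg k n) rfl (mm_le k n) hn0
  have g2 := hits_union (n := n) (m := mm k n) 𝒯 A R hA a
  have g3 : ∀ t ∈ 𝒯, (hits n (mm k n) a (R t) : ℝ) ≤
      8 * (13 / 15) ^ gg k n * (n : ℝ) ^ (24 * mm k n) := by
    intro t ht
    obtain ⟨X, Y, hXY, hX, hY, hmix⟩ := hR t ht
    have g4 := part_bound hn0 (R t) X Y hXY hX hY hmix
    have g5 : hits n (mm k n) b (R t) = 0 := by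
      apply hits_zero_of
      intro f hf hRf
      exact h2 f hf ((hA _).2 ⟨t, ht, hRf⟩)
    rw [abs_le] at g4
    rcases hab with ⟨rfl, rfl⟩ | ⟨rfl, rfl⟩
    · rw [g5] at g4
      push_cast at g4
      linarith [g4.2]
    · rw [g5] at g4
      push_cast at g4
      linarith [g4.1]
  have g6 : (hits n (mm k n) a A : ℝ) ≤
      𝒯.card * (8 * (13 / 15) ^ gg k n * (n : ℝ) ^ (24 * mm k n)) := by
    calc (hits n (mm k n) a A : ℝ)
        ≤ ∑ t ∈ 𝒯, (hits n (mm k n) a (R t) : ℝ) := by exact_mod_cast g2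
      _ ≤ ∑ t ∈ 𝒯, 8 * (13 / 15) ^ gg k n * (n : ℝ) ^ (24 * mm k n) := sum_le_sum g3
      _ = _ := by rw [sum_const, nsmul_eq_mul]
  have hN : (0 : ℝ) < (n : ℝ) ^ (24 * mm k n) := by
    have : (0 : ℝ) < n := by exact_mod_cast hn0
    positivity
  have g7 := ratio_bound (gg k n) ((n : ℝ) ^ (24 * mm k n)) hN 𝒯.card 1 (by positivity)
    (by rw [one_mul]; exact g1.trans g6)
  have g8 := final_ineq k n s 𝒯.card hk ha hs.le hT
  have g9 : (1 : ℝ) ≤ 1 / 2 ^ (n / (1000 * k) ^ (1000 * k)) := g7.trans g8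
  rw [le_div_iff₀ (by positivity), one_mul] at g9
  have g10 : (2 : ℝ) ≤ 2 ^ (n / (1000 * k) ^ (1000 * k)) := by
    calc (2 : ℝ) = 2 ^ 1 := by norm_num
      _ ≤ _ := pow_le_pow_right₀ (by norm_num) ha
  linarith

/-- Restricting a family of mixing sets to the first graph. -/
theorem restrict_first {R : (Var n → Bool) → Prop} {X Y : Finset (Var n)} (D : ℕ)
    (hn : 2 ≤ n) (hX : X ⊆ ZZ n) (hY : Y ⊆ ZZ n) (hXY : Disjoint X Y)
    (hXc : (ZZ n).card ≤ D * X.card) (hYc : (ZZ n).card ≤ D * Y.card)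
    (hmix : NBP.MixV X Y R) (H : Pr n → Bool) :
    ∃ X Y : Finset (Pr n), Disjoint X Y ∧ n ^ 2 ≤ 4 * D * X.card ∧
      n ^ 2 ≤ 4 * D * Y.card ∧ Mixing X Y (fun x => R (Sum.elim x H)) := by
  classical
  have hcard : ∀ A : Finset (Var n), A ⊆ ZZ n →
      (univ.filter (fun e : Pr n => Sum.inl e ∈ A)).card = A.card := by
    intro A hA
    apply card_bij (fun e _ => Sum.inl e)
    · intro e he
      exact (mem_filter.1 he).2
    · intro e _ e' _ h
      exact Sum.inl_injective h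
    · intro v hv
      obtain ⟨e, _, rfl⟩ := mem_map.1 (hA hv)
      exact ⟨e, mem_filter.2 ⟨mem_univ _, hv⟩, rfl⟩
  refine ⟨univ.filter (fun e => Sum.inl e ∈ X), univ.filter (fun e => Sum.inl e ∈ Y),
    ?_, ?_, ?_, ?_⟩
  · rw [disjoint_left]
    intro e he he'
    exact disjoint_left.1 hXY (mem_filter.1 he).2 (mem_filter.1 he').2
  · rw [hcard X hX]
    have h5 := sq_le_card hn
    rw [card_ZZ] at hXc
    calc n ^ 2 ≤ 4 * Fintype.card (Pr n) := h5
      _ ≤ 4 * (D * X.card) := Nat.mul_le_mul_left _ hXc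
      _ = _ := by ring
  · rw [hcard Y hY]
    have h5 := sq_le_card hn
    rw [card_ZZ] at hYc
    calc n ^ 2 ≤ 4 * Fintype.card (Pr n) := h5
      _ ≤ 4 * (D * Y.card) := Nat.mul_le_mul_left _ hYc
      _ = _ := by ring
  · intro x x' hx hx' hag
    have h6 := hmix _ _ hx hx' (by
      intro v hv hv'
      rcases v with e | e
      · apply hag e
        · intro h; exact hv (mem_filter.1 h).2
        · intro h; exact hv' (mem_filter.1 h).2
      · rfl)
    convert h6 using 1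
    funext v
    rcases v with e | e
    · simp
    · simp

theorem dnnf_core (C : Circuit (Var n) s) (hC : C.Decomposable) (H : Pr n → Bool)
    (a b : ZMod 3) (hab : (a = 0 ∧ b = 1) ∨ (a = 1 ∧ b = 0)) (ha : 1 ≤ aa 1 n)
    (h1 : ∀ f : Pos (mm 1 n) → Fin n, Function.Injective f →
      C.eval (Sum.elim (inp f (strt (mm 1 n) a)) H) = true)
    (h2 : ∀ f : Pos (mm 1 n) → Fin n, Function.Injective f →
      ¬ C.eval (Sum.elim (inp f (strt (mm 1 n) b)) H) = true) : 2 ^ aa 1 n ≤ s := by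
  by_contra hcon
  push Not at hcon
  obtain ⟨hn, hnk, hm, hmn⟩ := params le_rfl ha
  obtain ⟨𝒯, R, hA, hR⟩ := dnnf_decomp C hC (ZZ n) (by rw [card_ZZ]; omega)
  have hs : 1 ≤ s := by
    have := C.out.2
    omega
  refine core_family (k := 1) (s := s) 𝒯 (fun t x => R t (Sum.elim x H))
    (fun x => C.eval (Sum.elim x H) = true) le_rfl hcon ?_ (fun x => hA _) ?_ a b hab ha h1 h2
  · refine (card_le_univ _).trans ?_
    rw [Fintype.card_option, Fintype.card_prod, Fintype.card_option, Fintype.card_fin]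
    have h3 : s * (s + 1) + 1 ≤ 4 * (s * s) * (n * n) := by
      have h4 : 1 ≤ n * n := by nlinarith
      have h5 : s * (s + 1) + 1 ≤ 4 * (s * s) := by nlinarith
      calc s * (s + 1) + 1 ≤ 4 * (s * s) * 1 := by omega
        _ ≤ 4 * (s * s) * (n * n) := Nat.mul_le_mul_left _ h4
    exact h3.trans (Nat.le_self_pow (by norm_num) _)
  · intro t ht
    obtain ⟨X, Y, hX, hY, hXY, hXc, hYc, hmix⟩ := hR t ht
    obtain ⟨X', Y', h3, h4, h5, h6⟩ := restrict_first 40 hn hX hY hXY hXc hYc hmix H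
    have hKK : KK 1 = 4 * 40 := by
      unfold KK; norm_num
    rw [hKK]
    exact ⟨X', Y', h3, h4, h5, h6⟩

theorem dnnf_deg_two (C : Circuit (Var n) s) (hC : C.Decomposable)
    (h : (∀ z, DegTwoPair z → (C.eval z = true ↔ IsIso z)) ∨
      (∀ z, DegTwoPair z → (C.eval z = true ↔ ¬ IsIso z))) : 2 ^ aa 1 n ≤ s := by
  rcases Nat.eq_zero_or_pos (aa 1 n) with ha | ha
  · rw [ha]
    have := C.out.2
    omega
  obtain ⟨hn, hnk, hm, hmn⟩ := params le_rfl ha
  obtain ⟨g, hg⟩ := exists_placement hmn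
  rcases h with h | h
  · apply dnnf_core C hC (inp g (strt (mm 1 n) 0)) 0 1 (Or.inl ⟨rfl, rfl⟩) ha
    · intro f hf
      exact (h _ (degTwoPair_elim f g hf hg 0 0)).2 (isIso_elim f g hf hg 0)
    · intro f hf hacc
      exact not_isIso_elim hm f g hf hg ((h _ (degTwoPair_elim f g hf hg 1 0)).1 hacc)
  · apply dnnf_core C hC (inp g (strt (mm 1 n) 0)) 1 0 (Or.inr ⟨rfl, rfl⟩) ha
    · intro f hf
      exact (h _ (degTwoPair_elim f g hf hg 1 0)).2 (not_isIso_elim hm f g hf hg)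
    · intro f hf hacc
      exact (h _ (degTwoPair_elim f g hf hg 0 0)).1 hacc (isIso_elim f g hf hg 0)

end Pool.Agent.V7H65.RK
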