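import Mathlib
import Pool.Agent.V7H65.RK.DNMain

/-!
# Graph non-isomorphism and circuits in decomposable negation normal form

`IsIso z` is the graph isomorphism function for graphs on `n` labelled vertices: the input
`z : Var n → Bool` consists of the `n(n-1)` adjacency bits of the two graphs. `DegTwoPair z` says
that both graphs have maximum degree at most two. A `Circuit V s` is a Boolean circuit with `s`
gates (literals, constants, fan-in two AND and OR gates); it is `Decomposable` (a DNNF) if the two
inputs of every AND gate depend on disjoint sets of variables.

The theorem: DNNF circuits for graph non-isomorphism have exponential size, and this already on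
the graphs of maximum degree two (disjoint unions of paths and cycles), where the same holds for
isomorphism.
-/

namespace Pool.Agent.Results.MP_128e7d_lc.DNNFNonIsoH65

open Pool.Agent.H526R2.GI Pool.Agent.V7H65.RK

/-- There is a constant `K` such that every DNNF circuit that, on the pairs of graphs with `n`
vertices and maximum degree at most two, computes isomorphism, or computes non-isomorphism, has at
least `2 ^ (n / K)` gates (`n / K` rounded down). -/
theorem result : ∃ K > 0, ∀ (n s : ℕ) (C : Circuit (Var n) s), C.Decomposable →
    ((∀ z, DegTwoPair z → (C.eval z = true ↔ IsIso z)) ∨
      (∀ z, DegTwoPair z → (C.eval z = true ↔ ¬ IsIso z))) → 2 ^ (n / K) ≤ s :=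
  ⟨(1000 * 1) ^ (1000 * 1), Nat.pow_pos (by norm_num), fun _ _ C hC h => dnnf_deg_two C hC h⟩

end Pool.Agent.Results.MP_128e7d_lc.DNNFNonIsoH65
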